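import Pool.Agent.W153.EO.Sep
import Pool.Agent.W153.EO.Count
import Pool.Agent.H430R3.KST

set_option autoImplicit false

/-!
# The edge-ordered path of `Pool.Agent.W153.EO` and powers of the logarithm

The host of `Pool.Agent.W153.EO` has `n ≤ 4 * 2 ^ b * X` vertices and at least `2 ^ b * (2 ^ b * X)` edges, while
`log n ≤ 5 * b ^ 2`; so its number of edges beats `n * (log n) ^ c` for every `c`.
-/

namespace Pool.Agent.Y432.EOPoly

open Filter Topology Finset
open Pool.Agent.W153.EO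

/-- The numerical estimate, for an arbitrary power of the logarithm. -/
lemma estimate (c : ℕ) (C : ℝ) (b : ℕ) (hb : 1 ≤ b) (hlarge : 4 * |C| * (5 * (b : ℝ) ^ 2) ^ c < 2 ^ b) (n : ℕ)
    (hn : n = 2 ^ b * (b * 2 ^ b + 2 ^ b) ^ b + (2 * (b * 2 ^ b)) ^ b) :
    C * (n : ℝ) * Real.log (n : ℝ) ^ c < (((2 * (b * 2 ^ b)) ^ b * 2 ^ b : ℕ) : ℝ) := by
  have hb' : (0 : ℝ) < b := by exact_mod_cast hb
  have hb1 : (1 : ℝ) ≤ b := by exact_mod_cast hb
  set X : ℝ := ((b : ℝ) * 2 ^ b) ^ b with hX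
  have hXpos : 0 < X := by positivity
  have h2b : (1 : ℝ) ≤ 2 ^ b := one_le_pow₀ (by norm_num)
  have hnX : (n : ℝ) ≤ 4 * 2 ^ b * X := by
    rw [hn]
    push_cast
    have e1 : ((b : ℝ) * 2 ^ b + 2 ^ b) ^ b = (2 ^ b) ^ b * ((b : ℝ) + 1) ^ b := by
      rw [← mul_pow]
      congr 1
      ring
    have e2 : (2 * ((b : ℝ) * 2 ^ b)) ^ b = 2 ^ b * X := by
      rw [mul_pow, hX]
    rw [e1, e2]
    have e3 : (2 ^ b) ^ b * ((b : ℝ) + 1) ^ b ≤ 3 * X := by
      calc ((2 : ℝ) ^ b) ^ b * ((b : ℝ) + 1) ^ b ≤ (2 ^ b) ^ b * (3 * (b : ℝ) ^ b) :=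
            mul_le_mul_of_nonneg_left (pow_ratio b hb) (by positivity)
        _ = 3 * X := by
            rw [hX, mul_pow]
            ring
    calc (2 : ℝ) ^ b * ((2 ^ b) ^ b * ((b : ℝ) + 1) ^ b) + 2 ^ b * X
        ≤ 2 ^ b * (3 * X) + 2 ^ b * X := by
          have := mul_le_mul_of_nonneg_left e3 (by positivity : (0 : ℝ) ≤ 2 ^ b)
          linarith
      _ = 4 * 2 ^ b * X := by ring
  have hnpos : 0 < n := by
    rw [hn]
    have : 0 < (2 * (b * 2 ^ b)) ^ b := by positivity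
    omega
  have hn1 : (1 : ℝ) ≤ n := by exact_mod_cast hnpos
  have hlog0 : 0 ≤ Real.log n := Real.log_nonneg hn1
  have hlog2 : Real.log 2 ≤ 1 := by
    have := Real.log_two_lt_d9
    linarith
  have hlog2' : 0 ≤ Real.log 2 := Real.log_nonneg (by norm_num)
  have hlog : Real.log n ≤ 5 * (b : ℝ) ^ 2 := by
    calc Real.log n ≤ Real.log (4 * 2 ^ b * X) := Real.log_le_log (by linarith) hnX
      _ = 2 * Real.log 2 + b * Real.log 2 + b * (Real.log b + b * Real.log 2) := by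
          rw [Real.log_mul (by positivity) (by positivity), Real.log_mul (by positivity) (by positivity),
            Real.log_pow, hX, Real.log_pow, Real.log_mul (by positivity) (by positivity), Real.log_pow,
            show (4 : ℝ) = 2 ^ 2 by norm_num, Real.log_pow]
          push_cast
          ring
      _ ≤ 2 * 1 + b * 1 + b * (b + b * 1) := by
          have h1 := log_nat_le b hb
          have h2 : (b : ℝ) * Real.log 2 ≤ b * 1 := mul_le_mul_of_nonneg_left hlog2 hb'.le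
          have h3 : (b : ℝ) * (Real.log b + b * Real.log 2) ≤ b * (b + b * 1) :=
            mul_le_mul_of_nonneg_left (by linarith) hb'.le
          linarith
      _ ≤ 5 * (b : ℝ) ^ 2 := by nlinarith
  have hlogc : Real.log n ^ c ≤ (5 * (b : ℝ) ^ 2) ^ c := pow_le_pow_left₀ hlog0 hlog c
  have hE : (((2 * (b * 2 ^ b)) ^ b * 2 ^ b : ℕ) : ℝ) = 2 ^ b * (2 ^ b * X) := by
    push_cast
    rw [mul_pow, hX]
    ring
  rw [hE]
  calc C * (n : ℝ) * Real.log n ^ c ≤ |C| * n * Real.log n ^ c := by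
        apply mul_le_mul_of_nonneg_right _ (pow_nonneg hlog0 c)
        exact mul_le_mul_of_nonneg_right (le_abs_self C) (by positivity)
    _ ≤ |C| * (4 * 2 ^ b * X) * (5 * (b : ℝ) ^ 2) ^ c := by
        apply mul_le_mul _ hlogc (pow_nonneg hlog0 c) (by positivity)
        exact mul_le_mul_of_nonneg_left hnX (abs_nonneg C)
    _ = (4 * |C| * (5 * (b : ℝ) ^ 2) ^ c) * (2 ^ b * X) := by ring
    _ < 2 ^ b * (2 ^ b * X) := by
        apply mul_lt_mul_of_pos_right hlarge (by positivity)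

lemma exists_b (c : ℕ) (C : ℝ) (N : ℕ) :
    ∃ b : ℕ, 1 ≤ b ∧ N ≤ b ∧ 4 * |C| * (5 * (b : ℝ) ^ 2) ^ c < 2 ^ b := by
  have h1 : Tendsto (fun b : ℕ => (b : ℝ) ^ (2 * c) / 2 ^ b) atTop (𝓝 0) :=
    tendsto_pow_const_div_const_pow_of_one_lt (2 * c) (by norm_num)
  have h2 := h1.const_mul (4 * |C| * 5 ^ c)
  rw [mul_zero] at h2
  have h3 : ∀ᶠ b : ℕ in atTop, 4 * |C| * 5 ^ c * ((b : ℝ) ^ (2 * c) / 2 ^ b) < 1 :=
    h2.eventually_lt_const (by norm_num)
  obtain ⟨b, hb⟩ := (h3.and ((eventually_ge_atTop 1).and (eventually_ge_atTop N))).exists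
  refine ⟨b, hb.2.1, hb.2.2, ?_⟩
  have h4 := hb.1
  rw [← mul_div_assoc, div_lt_one (by positivity)] at h4
  have h5 : 4 * |C| * (5 * (b : ℝ) ^ 2) ^ c = 4 * |C| * 5 ^ c * (b : ℝ) ^ (2 * c) := by
    rw [mul_pow, ← pow_mul]
    ring
  rw [h5]
  exact h4

/-- The lower bound: for every `c` and `C` there are arbitrarily large hosts which avoid the pattern and have more than
`C * n * (log n) ^ c` edges. -/
theorem lower (c : ℕ) (C : ℝ) (N : ℕ) : ∃ n : ℕ, N ≤ n ∧ ∃ G : SimpleGraph (Fin n), ∃ g : Sym2 (Fin n) → ℕ,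
    Set.InjOn g G.edgeSet ∧ ¬ Cont G g ∧ C * (n : ℝ) * Real.log (n : ℝ) ^ c < (G.edgeSet.ncard : ℝ) := by
  obtain ⟨b, hb1, hbN, hb⟩ := exists_b c C N
  obtain ⟨G, g, hg, hC, hcard⟩ := transport (host b (2 ^ b) (b * 2 ^ b)) (ord b (2 ^ b) (b * 2 ^ b))
    (ord_injOn _ _ _) (host_avoids _ _ _)
  have hn := host_card b (2 ^ b) (b * 2 ^ b)
  refine ⟨_, ?_, G, g, hg, hC, ?_⟩
  · rw [hn]
    have h1 : b < 2 ^ b := Nat.lt_two_pow_self
    have h2 : 2 ^ b ≤ (2 * (b * 2 ^ b)) ^ b := by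
      apply Nat.pow_le_pow_left
      have : 1 ≤ b * 2 ^ b := Nat.one_le_iff_ne_zero.mpr (by positivity)
      omega
    omega
  · refine lt_of_lt_of_le (estimate c C b hb1 hb _ hn) ?_
    rw [hcard]
    exact_mod_cast host_edges b (2 ^ b) (b * 2 ^ b)

/-- A graph on `n` vertices with more than `ε * n ^ 2` edges contains a complete bipartite graph of given size. -/
lemma dense (s : ℕ) (ε : ℝ) (hε : 0 < ε) : ∃ N : ℕ, ∀ n : ℕ, N ≤ n → ∀ G : SimpleGraph (Fin n),
    ε * (n : ℝ) ^ 2 < (G.edgeSet.ncard : ℝ) →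
    ∃ X Y : Finset (Fin n), X.card = s + 1 ∧ Y.card = s + 1 ∧ ∀ x ∈ X, ∀ y ∈ Y, G.Adj x y := by
  classical
  obtain ⟨q, hq⟩ := exists_nat_gt (1 / ε)
  have hq0 : 1 ≤ q := by
    have h1 : 0 < 1 / ε := by positivity
    have h2 : (0 : ℝ) < q := h1.trans hq
    exact_mod_cast h2
  obtain ⟨R0, hR0⟩ := Pool.Agent.H430R3.weak_kst (s + 1) q (by omega) hq0
  refine ⟨R0, ?_⟩
  intro n hn G hE
  have hdeg : ∀ v : Fin n, (univ.filter fun y => G.Adj v y).card = G.degree v := by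
    intro v
    rw [← SimpleGraph.card_neighborFinset_eq_degree]
    congr 1
    ext y
    simp
  have hsum : ∑ x ∈ (univ : Finset (Fin n)), (univ.filter fun y => G.Adj x y).card = 2 * G.edgeSet.ncard := by
    rw [Finset.sum_congr rfl (fun v _ => hdeg v), G.sum_degrees_eq_twice_card_edges, ← SimpleGraph.coe_edgeFinset,
      Set.ncard_coe_finset]
  obtain ⟨X, -, Y, -, hX, hY, hXY⟩ := hR0 (univ : Finset (Fin n)) (univ : Finset (Fin n)) (fun x y => G.Adj x y) n hn
    (by simp) (by simp) (by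
      rw [hsum]
      have h1 : (1 : ℝ) < q * ε := by
        rwa [div_lt_iff₀ hε] at hq
      have h2 : ((n * n : ℕ) : ℝ) < ((q * (2 * G.edgeSet.ncard) : ℕ) : ℝ) := by
        push_cast
        have hqpos : (0 : ℝ) < q := by exact_mod_cast hq0
        have h3 : (n : ℝ) * n ≤ q * (ε * (n : ℝ) ^ 2) := by nlinarith [sq_nonneg (n : ℝ)]
        have h4 : (q : ℝ) * (ε * (n : ℝ) ^ 2) < q * (G.edgeSet.ncard : ℝ) := mul_lt_mul_of_pos_left hE hqpos
        have h5 : (0 : ℝ) ≤ q * (G.edgeSet.ncard : ℝ) := by positivity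
        nlinarith
      exact_mod_cast h2)
  exact ⟨X, Y, hX, hY, hXY⟩

/-- Edge-ordered graphs which avoid the pattern have `o(n ^ 2)` edges. -/
theorem sparse (ε : ℝ) (hε : 0 < ε) : ∃ N : ℕ, ∀ n : ℕ, N ≤ n →
    ∀ (G : SimpleGraph (Fin n)) (M : Sym2 (Fin n) → ℕ), Set.InjOn M G.edgeSet → ¬ Cont G M →
      (G.edgeSet.ncard : ℝ) ≤ ε * (n : ℝ) ^ 2 := by
  classical
  obtain ⟨P, Q, hPQ⟩ := exists_host
  obtain ⟨N, hN⟩ := dense (P + Q) ε hε
  refine ⟨N, ?_⟩
  intro n hn G M hM hC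
  by_contra hcon
  push Not at hcon
  obtain ⟨X, Y, hX, hY, hXY⟩ := hN n hn G hcon
  apply hC
  -- the embedding of the complete bipartite graph
  have hXc : Fintype.card (Fin P) ≤ Fintype.card X := by simp [hX]; omega
  have hYc : Fintype.card (Fin Q) ≤ Fintype.card Y := by simp [hY]; omega
  obtain ⟨eX⟩ := Function.Embedding.nonempty_of_card_le hXc
  obtain ⟨eY⟩ := Function.Embedding.nonempty_of_card_le hYc
  let ψ : Fin P ⊕ Fin Q → Fin n := Sum.elim (fun p => (eX p : Fin n)) (fun q => (eY q : Fin n))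
  have hψadj : ∀ u v, (completeBipartiteGraph (Fin P) (Fin Q)).Adj u v → G.Adj (ψ u) (ψ v) := by
    rintro (p | q) (p' | q') h
    · simp at h
    · exact hXY _ (eX p).2 _ (eY q').2
    · exact (hXY _ (eX p').2 _ (eY q).2).symm
    · simp at h
  have hψinj : Function.Injective ψ := by
    rintro (p | q) (p' | q') h
    · have h' : (eX p : Fin n) = eX p' := h
      rw [eX.injective (Subtype.ext h')]
    · exfalso
      have h' : (eX p : Fin n) = eY q' := h
      have := hXY _ (eX p).2 _ (eY q').2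
      rw [h'] at this
      exact G.loopless.irrefl _ this
    · exfalso
      have h' : (eY q : Fin n) = eX p' := h
      have := hXY _ (eX p').2 _ (eY q).2
      rw [h'] at this
      exact G.loopless.irrefl _ this
    · have h' : (eY q : Fin n) = eY q' := h
      rw [eY.injective (Subtype.ext h')]
  have hmem : ∀ e ∈ (completeBipartiteGraph (Fin P) (Fin Q)).edgeSet, Sym2.map ψ e ∈ G.edgeSet := by
    intro e he
    induction e using Sym2.ind with
    | _ x y => exact hψadj x y he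
  obtain ⟨φ, h1, h2, h3⟩ := hPQ (fun e => M (Sym2.map ψ e)) (by
    intro e he e' he' h
    exact Sym2.map.injective hψinj (hM (hmem e he) (hmem e' he') h))
  refine ⟨ψ ∘ φ, hψinj.comp h1, fun u v huv => hψadj _ _ (h2 u v huv), ?_⟩
  intro e₁ he₁ e₂ he₂ hlt
  have := h3 e₁ he₁ e₂ he₂ hlt
  simpa only [Sym2.map_map] using this

end Pool.Agent.Y432.EOPoly
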