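import Pool.Agent.Y432.Parts
import Pool.Agent.W219.SP.Kfold

/-!
The dichotomy between few products and many sums, in terms of the number of different parts
composed of a given set of primes.
-/

set_option autoImplicit false

namespace Pool.Agent.Y432

open Finset Pool.Agent.W219.SP
open scoped Pointwise

/-- iterating the lower bound for sumsets -/
theorem iter_sum (A : Finset ℤ) (hA : A.Nonempty) (δ : ℝ) (hδ : 0 < δ) (hδ1 : δ ≤ 1) (k : ℕ)
    (h : ∀ C : Finset ℤ, C.Nonempty →
      (1 - δ) * ((1 - δ) * Real.log A.card + Real.log C.card) ≤ Real.log (A + C).card)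
    (B : Finset ℤ) (hB : B.Nonempty) (n : ℕ) (hn : n ≤ k) :
    (n - n * (k + 2) * δ) * Real.log A.card + (1 - n * δ) * Real.log B.card ≤
      Real.log ((ksum n A + B).card : ℝ) := by
  have hlA : 0 ≤ Real.log A.card := Real.log_natCast_nonneg _
  have hlB : 0 ≤ Real.log B.card := Real.log_natCast_nonneg _
  induction n with
  | zero =>
    rw [ksum_zero]
    simp
  | succ n ih =>
    have h1 := ih (by omega)
    have hC : (ksum n A + B).Nonempty := (ksum_nonempty n hA).add hB
    have h2 := h _ hC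
    have h3 : (0 : ℝ) < (A + (ksum n A + B)).card := by
      exact_mod_cast (hA.add hC).card_pos
    have h5 : Real.log (A + (ksum n A + B)).card ≤ Real.log (ksum (n + 1) A + B).card := by
      refine Real.log_le_log h3 ?_
      exact_mod_cast Finset.card_le_card (add_ksum_sub n A B)
    refine le_trans ?_ (h2.trans h5)
    have h6 := mul_le_mul_of_nonneg_left h1 (by linarith : (0 : ℝ) ≤ 1 - δ)
    have hnk : (n : ℝ) + 1 ≤ k := by exact_mod_cast hn
    have hn0 : (0 : ℝ) ≤ n := Nat.cast_nonneg _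
    have h7 : ((n + 1 : ℕ) : ℝ) - ((n + 1 : ℕ) : ℝ) * (k + 2) * δ ≤
        (1 - δ) * (1 - δ) + (1 - δ) * (n - n * (k + 2) * δ) := by
      push_cast
      have e1 : 0 ≤ (k - n : ℝ) * δ := mul_nonneg (by linarith) hδ.le
      have e2 : 0 ≤ (n : ℝ) * (k + 2) * (δ * δ) := by positivity
      nlinarith
    have h8 : 1 - ((n + 1 : ℕ) : ℝ) * δ ≤ (1 - δ) * (1 - n * δ) := by
      push_cast
      have e2 : 0 ≤ (n : ℝ) * (δ * δ) := by positivity
      nlinarith
    have h9 := mul_le_mul_of_nonneg_right h7 hlA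
    have h10 := mul_le_mul_of_nonneg_right h8 hlB
    linarith

/-- growth estimates needed below -/
theorem est (K : ℝ) (hK : 1 ≤ K) (δ : ℝ) (hδ : 0 < δ) (hδ1 : δ ≤ 1) :
    ∃ N₀ : ℕ, 2 ≤ N₀ ∧ ∀ N : ℕ, N₀ ≤ N → 1 ≤ Real.log (Real.log N) ∧ ∀ r : ℕ,
      (r : ℝ) * Real.log (Real.log N) ≤ δ / 4 * Real.log N →
      2 * (K * Real.log N) ^ r ≤ (N : ℝ) ^ δ ∧ (r : ℝ) ≤ Real.log N := by
  have hKr : ∃ M : ℝ, 1 ≤ M ∧ Real.exp 1 ≤ M ∧ K ≤ M ∧ 2 * Real.log 2 / δ ≤ M := by
    refine ⟨max (max 1 (Real.exp 1)) (max K (2 * Real.log 2 / δ)), ?_, ?_, ?_, ?_⟩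
    · exact (le_max_left _ _).trans (le_max_left _ _)
    · exact (le_max_right _ _).trans (le_max_left _ _)
    · exact (le_max_left _ _).trans (le_max_right _ _)
    · exact (le_max_right _ _).trans (le_max_right _ _)
  obtain ⟨M, hM1, hMe, hMK, hM2⟩ := hKr
  obtain ⟨N₁, hN₁⟩ := exists_nat_ge (Real.exp M)
  refine ⟨max 2 N₁, le_max_left _ _, fun N hN => ?_⟩
  have hNR : Real.exp M ≤ N := hN₁.trans (by exact_mod_cast (le_max_right _ _).trans hN)
  have hN0 : (0 : ℝ) < N := (Real.exp_pos _).trans_le hNR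
  have hL : M ≤ Real.log N := by
    rw [Real.le_log_iff_exp_le hN0]
    exact hNR
  have hL0 : 0 < Real.log N := by linarith
  have hLL : 1 ≤ Real.log (Real.log N) := by
    rw [Real.le_log_iff_exp_le hL0]
    linarith
  refine ⟨hLL, fun r hr => ?_⟩
  have hr0 : (0 : ℝ) ≤ r := Nat.cast_nonneg _
  have hK0 : 0 < K := by linarith
  constructor
  · have h1 : 0 < 2 * (K * Real.log N) ^ r := by positivity
    rw [← Real.log_le_log_iff h1 (Real.rpow_pos_of_pos hN0 _), Real.log_rpow hN0,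
      Real.log_mul two_ne_zero (by positivity), Real.log_pow, Real.log_mul hK0.ne' hL0.ne']
    have h2 : Real.log K ≤ Real.log (Real.log N) := Real.log_le_log hK0 (by linarith)
    have h3 : (r : ℝ) * (Real.log K + Real.log (Real.log N)) ≤
        r * (2 * Real.log (Real.log N)) :=
      mul_le_mul_of_nonneg_left (by linarith) hr0
    have h4 : Real.log 2 ≤ δ / 2 * Real.log N := by
      have h5 : 2 * Real.log 2 / δ ≤ Real.log N := hM2.trans hL
      rw [div_le_iff₀ hδ] at h5
      linarith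
    linarith
  · have h2 : (r : ℝ) * 1 ≤ r * Real.log (Real.log N) := mul_le_mul_of_nonneg_left hLL hr0
    have h3 : δ / 4 * Real.log N ≤ 1 * Real.log N :=
      mul_le_mul_of_nonneg_right (by linarith) hL0.le
    linarith

/-- the number of different parts composed of the primes of `P` -/
def parts (P : Finset ℕ) (Q : Finset ℤ) : ℕ :=
  (Q.image fun q : ℤ => ∏ p ∈ P, p ^ padicValInt p q).card

theorem exists_reps (P : Finset ℕ) (Q : Finset ℤ) : ∃ G ⊆ Q, G.card = parts P Q ∧
    ∀ g ∈ G, ∀ g' ∈ G, (∀ p ∈ P, padicValInt p g = padicValInt p g') → g = g' := by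
  classical
  obtain ⟨u, hu1, hu2, hu3⟩ := Finset.exists_subset_injOn_image_eq_of_surjOn
    (f := fun q : ℤ => ∏ p ∈ P, p ^ padicValInt p q) (Q : Set ℤ)
    (Q.image fun q : ℤ => ∏ p ∈ P, p ^ padicValInt p q) (by
      intro y hy
      simpa using hy)
  refine ⟨u, by exact_mod_cast hu1, ?_, ?_⟩
  · unfold parts
    rw [← hu3, Finset.card_image_of_injOn hu2]
  · intro g hg g' hg' h
    refine hu2 (Finset.mem_coe.2 hg) (Finset.mem_coe.2 hg') ?_
    exact Finset.prod_congr rfl fun p hp => by rw [h p hp]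

theorem asym (ε : ℝ) (hε : 0 < ε) (k : ℕ) : ∃ c : ℝ, 0 < c ∧ ∃ N₀ : ℕ, ∀ A : Finset ℤ,
    N₀ ≤ A.card → ∀ Q : Finset ℤ, Q.Nonempty → (0 : ℤ) ∉ Q → Q.card ≤ A.card ^ k →
    ∀ P : Finset ℕ, (∀ p ∈ P, p.Prime) →
    (P.card : ℝ) * Real.log (Real.log A.card) ≤ c * Real.log A.card →
    (A.card : ℝ) ^ (1 - ε) * (parts P Q : ℝ) ≤ ((A * Q).card : ℝ) ∨
    ∀ B : Finset ℤ, B.Nonempty →
      (A.card : ℝ) ^ ((k : ℝ) - ε) * (B.card : ℝ) ^ (1 - ε) ≤ ((ksum k A + B).card : ℝ) := by
  classical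
  have hk0 : (0 : ℝ) ≤ k := Nat.cast_nonneg _
  have hk2 : (0 : ℝ) < ((k : ℝ) + 2) ^ 2 := by positivity
  set δ : ℝ := min ε 1 / ((k : ℝ) + 2) ^ 2 with hδdef
  have hm0 : 0 < min ε 1 := lt_min hε one_pos
  have hδ : 0 < δ := div_pos hm0 hk2
  have hk21 : (1 : ℝ) ≤ ((k : ℝ) + 2) ^ 2 := by nlinarith
  have hδm : δ ≤ min ε 1 := by
    rw [hδdef, div_le_iff₀ hk2]
    nlinarith
  have hδ1 : δ ≤ 1 := hδm.trans (min_le_right _ _)
  have hδε : δ ≤ ε := hδm.trans (min_le_left _ _)
  have hδk : (k : ℝ) * (k + 2) * δ ≤ ε := by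
    have h1 : δ * ((k : ℝ) + 2) ^ 2 = min ε 1 := by
      rw [hδdef]
      field_simp
    have h2 : (k : ℝ) * (k + 2) * δ ≤ δ * ((k : ℝ) + 2) ^ 2 := by nlinarith
    linarith [min_le_left ε 1]
  have hδk2 : (k : ℝ) * δ ≤ ε := by
    refine le_trans ?_ hδk
    nlinarith [mul_nonneg hk0 hδ.le]
  set K : ℝ := 2 / δ * Real.exp (6 / δ) with hK
  have hK1 : 1 ≤ K := by
    have h1 : (2 : ℝ) ≤ 2 / δ := by
      rw [le_div_iff₀ hδ]
      linarith
    have h2 : (1 : ℝ) ≤ Real.exp (6 / δ) := by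
      rw [Real.one_le_exp_iff]
      positivity
    have h4 : (2 : ℝ) * 1 ≤ 2 / δ * Real.exp (6 / δ) :=
      mul_le_mul h1 h2 (by norm_num) (by positivity)
    linarith
  have hK0 : 0 < K := by linarith
  obtain ⟨N₀, hN2, hest⟩ := est (K * (k + 1)) (by nlinarith) δ hδ hδ1
  refine ⟨δ / 4, by positivity, N₀, ?_⟩
  intro A hA Q hQ hQ0 hQc P hP hPc
  obtain ⟨hLL, h0⟩ := hest A.card hA
  obtain ⟨hbig, hrL⟩ := h0 P.card hPc
  have hA1 : 1 < A.card := by omega
  have hAn : A.Nonempty := Finset.card_pos.1 (by omega)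
  have hAc : (1 : ℝ) < A.card := by exact_mod_cast hA1
  have hAc0 : (0 : ℝ) < A.card := by linarith
  have hlA : 0 < Real.log A.card := Real.log_pos hAc
  obtain ⟨G, hGQ, hGc, hGi⟩ := exists_reps P Q
  have hG0 : (0 : ℤ) ∉ G := fun h => hQ0 (hGQ h)
  have hGn : G.Nonempty := by
    rw [← Finset.card_pos, hGc]
    exact (hQ.image _).card_pos
  have hAGQ : ((A * G).card : ℝ) ≤ (A * Q).card := by
    exact_mod_cast Finset.card_le_card (Finset.mul_subset_mul_left hGQ)
  have hAGn : (0 : ℝ) < (A * G).card := by exact_mod_cast (hAn.mul hGn).card_pos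
  set T : ℝ := 2 / δ * Real.exp (6 / δ) * Real.log (A * G).card with hT
  have hlogAG : Real.log (A * G).card ≤ (k + 1) * Real.log A.card := by
    have h1 : (A * G).card ≤ A.card ^ (k + 1) := by
      refine Finset.card_mul_le.trans ?_
      rw [pow_succ, mul_comm (A.card ^ k)]
      exact Nat.mul_le_mul_left _ ((Finset.card_le_card hGQ).trans hQc)
    have h2 : ((A * G).card : ℝ) ≤ (A.card : ℝ) ^ (k + 1) := by exact_mod_cast h1
    have h3 := Real.log_le_log hAGn h2
    rw [Real.log_pow] at h3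
    push_cast at h3
    exact h3
  have hAAG : (A.card : ℝ) ≤ (A * G).card := by
    obtain ⟨g0, hg0⟩ := hGn
    have hg00 : g0 ≠ 0 := fun h => hG0 (h ▸ hg0)
    have h1 : A.image (fun a => a * g0) ⊆ A * G := by
      intro z hz
      obtain ⟨a, ha, rfl⟩ := Finset.mem_image.1 hz
      exact Finset.mul_mem_mul ha hg0
    have h2 := Finset.card_le_card h1
    rw [Finset.card_image_of_injective A (mul_left_injective₀ hg00)] at h2
    exact_mod_cast h2
  have hTL : Real.log A.card ≤ T := by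
    have h1 : Real.log A.card ≤ Real.log (A * G).card := Real.log_le_log hAc0 hAAG
    have h2 : 0 ≤ Real.log (A * G).card := Real.log_natCast_nonneg _
    rw [hT, ← hK]
    nlinarith
  have hT0 : 0 < T := by linarith
  have hTK : T ≤ K * (k + 1) * Real.log A.card := by
    calc T = K * Real.log (A * G).card := by rw [hT, hK]
      _ ≤ K * ((k + 1) * Real.log A.card) := mul_le_mul_of_nonneg_left hlogAG hK0.le
      _ = K * (k + 1) * Real.log A.card := by ring
  have h2T : 2 * T ^ P.card ≤ (A.card : ℝ) ^ δ := by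
    refine le_trans ?_ hbig
    exact mul_le_mul_of_nonneg_left (pow_le_pow_left₀ hT0.le hTK _) (by norm_num)
  -- enumeration of the primes
  obtain ⟨f, hf⟩ : ∃ f : ℕ → ℕ, (∀ i < P.card, f i ∈ P) ∧ ∀ p ∈ P, ∃ i < P.card, f i = p := by
    refine ⟨fun i => if h : i < P.card then (P.equivFin.symm ⟨i, h⟩ : P) else 0, ?_, ?_⟩
    · intro i hi
      simp only [hi, dif_pos]
      exact (P.equivFin.symm ⟨i, hi⟩).2
    · intro p hp
      refine ⟨P.equivFin ⟨p, hp⟩, (P.equivFin ⟨p, hp⟩).2, ?_⟩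
      simp
  by_cases hcase : 2 * T ^ P.card * (A * G).card < (A.card : ℝ) * G.card
  · right
    intro B hB
    have hmain : ∀ C : Finset ℤ, C.Nonempty →
        (1 - δ) * ((1 - δ) * Real.log A.card + Real.log C.card) ≤ Real.log (A + C).card := by
      intro C hC
      have hCc : (0 : ℝ) < C.card := by exact_mod_cast hC.card_pos
      have hAC : (0 : ℝ) < (A + C).card := by exact_mod_cast (hAn.add hC).card_pos
      have h1 := many_primes P.card f (fun i hi => hP _ (hf.1 i hi)) δ hδ hδ1 A G C hA1 hGn hC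
        hG0 (fun g hg g' hg' h => hGi g hg g' hg' fun p hp => by
          obtain ⟨i, hi, rfl⟩ := hf.2 p hp
          exact h i hi) T hT hcase
      rcases Nat.eq_zero_or_pos P.card with hr | hr
      · exfalso
        rw [hr, pow_zero] at hcase
        have hG1 : G.card ≤ 1 := by
          rw [Finset.card_le_one]
          intro g hg g' hg'
          refine hGi g hg g' hg' fun p hp => ?_
          rw [Finset.card_eq_zero.1 hr] at hp
          exact absurd hp (Finset.notMem_empty p)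
        have hG1R : (G.card : ℝ) ≤ 1 := by exact_mod_cast hG1
        have : (A.card : ℝ) * G.card ≤ A.card * 1 := mul_le_mul_of_nonneg_left hG1R hAc0.le
        linarith
      have hrR : (0 : ℝ) < P.card := by exact_mod_cast hr
      have h2 : 2 * P.card * T ^ (P.card - 1) ≤ (A.card : ℝ) ^ δ := by
        refine le_trans ?_ h2T
        have h3 : T ^ P.card = T * T ^ (P.card - 1) := by
          rw [← pow_succ']
          congr 1
          omega
        rw [h3]
        have h4 : (P.card : ℝ) * T ^ (P.card - 1) ≤ T * T ^ (P.card - 1) :=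
          mul_le_mul_of_nonneg_right (by linarith) (by positivity)
        linarith
      have h3 : 0 < 2 * (P.card : ℝ) * T ^ (P.card - 1) := by positivity
      have h4 := Real.log_le_log (Real.rpow_pos_of_pos (div_pos (mul_pos hAc0 hCc) h3) _) h1
      rw [Real.log_rpow (div_pos (mul_pos hAc0 hCc) h3),
        Real.log_div (mul_pos hAc0 hCc).ne' h3.ne', Real.log_mul hAc0.ne' hCc.ne'] at h4
      have h5 := Real.log_le_log h3 h2
      rw [Real.log_rpow hAc0] at h5
      refine le_trans (mul_le_mul_of_nonneg_left ?_ (by linarith : (0 : ℝ) ≤ 1 - δ)) h4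
      linarith
    have h1 := iter_sum A hAn δ hδ hδ1 k hmain B hB k le_rfl
    have hBc : (0 : ℝ) < B.card := by exact_mod_cast hB.card_pos
    have hlB : 0 ≤ Real.log B.card := Real.log_natCast_nonneg _
    have hS : (0 : ℝ) < (ksum k A + B).card := by
      exact_mod_cast ((ksum_nonempty k hAn).add hB).card_pos
    have h2 : 0 < (A.card : ℝ) ^ ((k : ℝ) - ε) * (B.card : ℝ) ^ (1 - ε) := by positivity
    rw [← Real.log_le_log_iff h2 hS, Real.log_mul (Real.rpow_pos_of_pos hAc0 _).ne'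
      (Real.rpow_pos_of_pos hBc _).ne', Real.log_rpow hAc0, Real.log_rpow hBc]
    refine le_trans (add_le_add ?_ ?_) h1
    · exact mul_le_mul_of_nonneg_right (by linarith) hlA.le
    · exact mul_le_mul_of_nonneg_right (by linarith) hlB
  · left
    push Not at hcase
    rw [← hGc]
    have hApos : 0 < (A.card : ℝ) ^ δ := Real.rpow_pos_of_pos hAc0 _
    have h1 : (A.card : ℝ) * G.card ≤ (A.card : ℝ) ^ δ * (A * G).card :=
      hcase.trans (mul_le_mul_of_nonneg_right h2T hAGn.le)
    have h2 : (A.card : ℝ) ^ (1 - ε) * G.card ≤ (A.card : ℝ) ^ (1 - δ) * G.card := by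
      refine mul_le_mul_of_nonneg_right ?_ (Nat.cast_nonneg _)
      exact Real.rpow_le_rpow_of_exponent_le hAc.le (by linarith)
    refine h2.trans (le_trans ?_ hAGQ)
    rw [Real.rpow_sub hAc0, Real.rpow_one, div_mul_eq_mul_div, div_le_iff₀ hApos]
    linarith

end Pool.Agent.Y432
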