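import Pool.Agent.Y432.ChainA

/-!
Sets with few products with a chain under divisibility.
-/

set_option autoImplicit false

namespace Pool.Agent.Y432

open Finset Pool.Agent.W219.SP
open scoped Pointwise

/-- the part of a number with respect to a set of primes -/
theorem exists_part (P : Set ℕ) (n : ℕ) : n ≠ 0 → ∃ u h : ℕ, n = u * h ∧
    (∀ p, p.Prime → p ∈ P → ¬ p ∣ h) ∧ (∀ p, p.Prime → p ∣ u → p ∈ P) := by
  induction n using Nat.recOnMul with
  | zero => intro h; exact absurd rfl h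
  | one =>
    intro _
    refine ⟨1, 1, rfl, fun p hp _ h => hp.one_lt.ne' (Nat.dvd_one.1 h), fun p hp h => ?_⟩
    exact absurd (Nat.dvd_one.1 h) hp.one_lt.ne'
  | prime q hq =>
    intro _
    by_cases hqP : q ∈ P
    · refine ⟨q, 1, by simp, fun p hp _ h => hp.one_lt.ne' (Nat.dvd_one.1 h), fun p hp h => ?_⟩
      rwa [(Nat.prime_dvd_prime_iff_eq hp hq).1 h]
    · refine ⟨1, q, by simp, fun p hp hpP h => ?_, fun p hp h => ?_⟩
      · rw [(Nat.prime_dvd_prime_iff_eq hp hq).1 h] at hpP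
        exact hqP hpP
      · exact absurd (Nat.dvd_one.1 h) hp.one_lt.ne'
  | mul a b ha hb =>
    intro h0
    obtain ⟨ha0, hb0⟩ := mul_ne_zero_iff.1 h0
    obtain ⟨u, h, e, h1, h2⟩ := ha ha0
    obtain ⟨u', h', e', h1', h2'⟩ := hb hb0
    refine ⟨u * u', h * h', by rw [e, e']; ring, fun p hp hpP hd => ?_, fun p hp hd => ?_⟩
    · rcases (hp.dvd_mul).1 hd with h3 | h3
      · exact h1 p hp hpP h3
      · exact h1' p hp hpP h3
    · rcases (hp.dvd_mul).1 hd with h3 | h3
      · exact h2 p hp h3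
      · exact h2' p hp h3

/-- the decomposition of the members of a chain -/
theorem exists_decomp (P : Set ℕ) (w : ℕ) (g : ℕ → ℤ) (hg0 : ∀ t < w, g t ≠ 0)
    (hle : ∀ t, t + 1 < w → ∀ p ∈ P, p.Prime →
      padicValInt p (g t) ≤ padicValInt p (g (t + 1)))
    (hlt : ∀ t, t + 1 < w → ∃ p ∈ P, p.Prime ∧
      padicValInt p (g t) < padicValInt p (g (t + 1))) :
    ∃ U h r : ℕ → ℤ, (∀ t < w, g t = U t * h t) ∧ (∀ t < w, U (t + 1) = U t * r t) ∧
      (∀ s < w, ∀ t < w, IsCoprime (h s) (r t)) ∧ ∀ t < w, 2 ≤ |r t| := by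
  classical
  have h1 : ∀ t, ∃ u h : ℕ, t < w → (g t).natAbs = u * h ∧
      (∀ p, p.Prime → p ∈ P → ¬ p ∣ h) ∧ (∀ p, p.Prime → p ∣ u → p ∈ P) := by
    intro t
    by_cases ht : t < w
    · obtain ⟨u, h, e⟩ := exists_part P (g t).natAbs (Int.natAbs_ne_zero.2 (hg0 t ht))
      exact ⟨u, h, fun _ => e⟩
    · exact ⟨0, 0, fun h => absurd h ht⟩
  choose u k huk using h1
  have hu0 : ∀ t < w, u t ≠ 0 := by
    intro t ht h
    have := (huk t ht).1
    rw [h, zero_mul, Int.natAbs_eq_zero] at this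
    exact hg0 t ht this
  have hk0 : ∀ t < w, k t ≠ 0 := by
    intro t ht h
    have := (huk t ht).1
    rw [h, mul_zero, Int.natAbs_eq_zero] at this
    exact hg0 t ht this
  have hval : ∀ t < w, ∀ p, p.Prime → p ∈ P → padicValInt p (g t) = (u t).factorization p := by
    intro t ht p hp hpP
    unfold padicValInt
    rw [(huk t ht).1, ← Nat.factorization_def _ hp,
      Nat.factorization_mul (hu0 t ht) (hk0 t ht), Finsupp.add_apply,
      Nat.factorization_eq_zero_of_not_dvd ((huk t ht).2.1 p hp hpP), add_zero]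
  have hdvd : ∀ t, t + 1 < w → u t ∣ u (t + 1) := by
    intro t ht
    rw [← Nat.factorization_le_iff_dvd (hu0 t (by omega)) (hu0 (t + 1) ht)]
    intro p
    by_cases hp : p.Prime
    · by_cases hpP : p ∈ P
      · rw [← hval t (by omega) p hp hpP, ← hval (t + 1) ht p hp hpP]
        exact hle t ht p hpP hp
      · rw [Nat.factorization_eq_zero_of_not_dvd fun h => hpP ((huk t (by omega)).2.2 p hp h)]
        exact Nat.zero_le _
    · rw [Nat.factorization_eq_zero_of_not_prime _ hp]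
      exact Nat.zero_le _
  have hne : ∀ t, t + 1 < w → u t ≠ u (t + 1) := by
    intro t ht he
    obtain ⟨p, hpP, hp, h2⟩ := hlt t ht
    rw [hval t (by omega) p hp hpP, hval (t + 1) ht p hp hpP, he] at h2
    exact lt_irrefl _ h2
  -- a large prime
  obtain ⟨ℓ, hℓ, hℓp⟩ := Nat.exists_infinite_primes
    (((Finset.range w).sup fun t => k t) + 1)
  have hℓk : ∀ s < w, Nat.Coprime (k s) ℓ := by
    intro s hs
    rw [Nat.coprime_comm, hℓp.coprime_iff_not_dvd]
    intro hd
    have h2 := Nat.le_of_dvd (Nat.pos_of_ne_zero (hk0 s hs)) hd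
    have h3 : k s ≤ (Finset.range w).sup fun t => k t :=
      Finset.le_sup (f := fun t => k t) (Finset.mem_range.2 hs)
    omega
  -- the quotients
  have hquo : ∀ t, ∃ r : ℕ, t < w → (t + 1 < w → u (t + 1) = u t * r) ∧
      (¬ t + 1 < w → r = ℓ) ∧ 2 ≤ r ∧ ∀ s < w, Nat.Coprime (k s) r := by
    intro t
    by_cases ht : t + 1 < w
    · obtain ⟨r, hr⟩ := hdvd t ht
      refine ⟨r, fun _ => ⟨fun _ => hr, fun h => absurd ht h, ?_, ?_⟩⟩
      · rcases Nat.lt_or_ge r 2 with h2 | h2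
        · exfalso
          interval_cases r
          · exact hu0 (t + 1) ht (by rw [hr, mul_zero])
          · exact hne t ht (by rw [hr, mul_one])
        · exact h2
      · intro s hs
        refine Nat.Coprime.symm (Nat.coprime_of_dvd fun p hp hpr hpk => ?_)
        have : p ∣ u (t + 1) := by rw [hr]; exact hpr.mul_left _
        exact (huk s hs).2.1 p hp ((huk (t + 1) ht).2.2 p hp this) hpk
    · exact ⟨ℓ, fun _ => ⟨fun h => absurd h ht, fun _ => rfl, hℓp.two_le, hℓk⟩⟩
  choose r hr using hquo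
  refine ⟨fun t => if t < w then (u t : ℤ) else (u (t - 1) : ℤ) * ℓ,
    fun t => (g t).sign * k t, fun t => (r t : ℤ), ?_, ?_, ?_, ?_⟩
  · intro t ht
    simp only [if_pos ht]
    have h2 := (huk t ht).1
    calc g t = (g t).sign * ((g t).natAbs : ℤ) := (Int.sign_mul_natAbs (g t)).symm
      _ = (u t : ℤ) * ((g t).sign * k t) := by rw [h2]; push_cast; ring
  · intro t ht
    simp only [if_pos ht]
    by_cases ht1 : t + 1 < w
    · rw [if_pos ht1, (hr t ht).1 ht1]
      push_cast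
      ring
    · rw [if_neg ht1, (hr t ht).2.1 ht1, Nat.add_sub_cancel]
  · intro s hs t ht
    have h2 : IsCoprime (k s : ℤ) (r t : ℤ) := Nat.isCoprime_iff_coprime.2 ((hr t ht).2.2.2 s hs)
    rcases lt_or_gt_of_ne (hg0 s hs) with h3 | h3
    · simp only [Int.sign_eq_neg_one_of_neg h3, neg_mul, one_mul]
      exact h2.neg_left
    · simp only [Int.sign_eq_one_of_pos h3, one_mul]
      exact h2
  · intro t ht
    have := (hr t ht).2.2.1
    simp only [Nat.abs_cast]
    exact_mod_cast this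

/-- few products with a chain force a large sumset -/
theorem chain_main (ε : ℝ) (hε : 0 < ε) (P : Set ℕ) (w : ℕ) (hw : 0 < w)
    (g : ℕ → ℤ) (hg0 : ∀ t < w, g t ≠ 0)
    (hle : ∀ t, t + 1 < w → ∀ p ∈ P, p.Prime →
      padicValInt p (g t) ≤ padicValInt p (g (t + 1)))
    (hlt : ∀ t, t + 1 < w → ∃ p ∈ P, p.Prime ∧
      padicValInt p (g t) < padicValInt p (g (t + 1)))
    (A B : Finset ℤ) (hA : A.Nonempty) (hB : B.Nonempty)
    (S : Finset ℤ) (hS : ∀ t < w, ∀ a ∈ A, g t * a ∈ S)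
    (hcount : 2 / ε * Real.exp (6 / ε) * (S.card * Real.log S.card) ≤ w * A.card) :
    ((A.card : ℝ) * B.card) ^ (1 - ε) ≤ ((A + B).card : ℝ) := by
  classical
  have hA0 : (0 : ℝ) < A.card := by exact_mod_cast hA.card_pos
  have hB0 : (0 : ℝ) < B.card := by exact_mod_cast hB.card_pos
  have hs : (0 : ℝ) < (A + B).card := by exact_mod_cast (hA.add hB).card_pos
  have hlA : 0 ≤ Real.log A.card := Real.log_natCast_nonneg _
  have hlB : 0 ≤ Real.log B.card := Real.log_natCast_nonneg _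
  have hw0 : (0 : ℝ) < w := by exact_mod_cast hw
  obtain ⟨U, h, r, h1, h2, h3, h4⟩ := exists_decomp P w g hg0 hle hlt
  obtain ⟨q, q0, q1, q2, q3⟩ := exists_chain A S w hw g U h r hg0 h1 h2 h3 h4
    (fun t ht z hz => by
      obtain ⟨a, ha, rfl⟩ := Finset.mem_image.1 hz
      exact hS t ht a ha)
  obtain ⟨J, hJ⟩ := sep_chain q q2 (A ∪ B)
  have hJA : ∀ x ∈ A, ∀ y ∈ A, q J ∣ x - y → x = y :=
    fun x hx y hy => hJ x (Finset.mem_union_left _ hx) y (Finset.mem_union_left _ hy)
  have hJB : ∀ x ∈ B, ∀ y ∈ B, q J ∣ x - y → x = y :=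
    fun x hx y hy => hJ x (Finset.mem_union_right _ hx) y (Finset.mem_union_right _ hy)
  obtain ⟨K, hK⟩ : ∃ K : ℝ, K = Real.exp (6 / ε) := ⟨_, rfl⟩
  have hK1 : 1 < K := by
    rw [hK, Real.one_lt_exp_iff]
    positivity
  have hlogK : 3 / Real.log K = ε / 2 := by
    rw [hK, Real.log_exp]
    field_simp
    norm_num
  obtain ⟨L, hL⟩ : ∃ L : ℝ, L = S.card * Real.log S.card := ⟨_, rfl⟩
  rw [← hK, ← hL] at hcount
  have hα : ∀ j < J, drop (q j) (q (j + 1)) A ≤ A.card * (L / (w * A.card)) := by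
    intro j _
    refine (q3 j).trans (le_of_eq ?_)
    rw [← hL]
    field_simp
  have h5 := star_chain_unif q q0 q1 A B hA hB hK1 J hJA hJB _ hα
  rw [hlogK] at h5
  have h6 : K * (L / (w * A.card)) ≤ ε / 2 := by
    rw [← mul_div_assoc, div_le_iff₀ (by positivity)]
    have h7 := mul_le_mul_of_nonneg_left hcount (by positivity : (0 : ℝ) ≤ ε / 2)
    have h8 : ε / 2 * (2 / ε * K * L) = K * L := by
      field_simp
    rw [h8] at h7
    exact h7
  have h7 : K * (L / (w * A.card) * Real.log B.card) ≤ ε / 2 * Real.log B.card := by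
    rw [← mul_assoc]
    exact mul_le_mul_of_nonneg_right h6 hlB
  have h8 : (1 - ε) * (Real.log A.card + Real.log B.card) ≤ Real.log (A + B).card := by
    have : 0 ≤ ε / 2 * Real.log A.card := by positivity
    linarith
  rw [Real.rpow_def_of_pos (by positivity), Real.log_mul hA0.ne' hB0.ne',
    ← Real.le_log_iff_exp_le hs]
  linarith

end Pool.Agent.Y432
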