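import Pool.Agent.Y432.StarC

/-!
Drops along scaled windows.
-/

set_option autoImplicit false

namespace Pool.Agent.Y432

open Finset Pool.Agent.W219.SP
open scoped Pointwise

/-- divisibility after scaling -/
theorem dvd_scale {g u h q : ℤ} (hg : g = u * h) (hu : u ≠ 0) (hc : IsCoprime h q) (z : ℤ) :
    u * q ∣ g * z ↔ q ∣ z := by
  rw [hg, mul_assoc, mul_dvd_mul_iff_left hu]
  constructor
  · intro h1
    exact hc.symm.dvd_of_dvd_mul_left h1
  · intro h1
    exact Dvd.dvd.mul_left h1 h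

theorem card_cls_scale {g u h q : ℤ} (hg : g = u * h) (hg0 : g ≠ 0) (hc : IsCoprime h q)
    (X : Finset ℤ) (x : ℤ) :
    (cls (u * q) (X.image fun x => g * x) (g * x)).card = (cls q X x).card := by
  have hu : u ≠ 0 := by
    rintro rfl
    exact hg0 (by rw [hg, zero_mul])
  have h1 : cls (u * q) (X.image fun x => g * x) (g * x) =
      (cls q X x).image fun x => g * x := by
    ext z
    simp only [mem_cls, Finset.mem_image]
    constructor
    · rintro ⟨⟨y, hy, rfl⟩, h2⟩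
      rw [← mul_sub] at h2
      exact ⟨y, ⟨hy, (dvd_scale hg hu hc _).1 h2⟩, rfl⟩
    · rintro ⟨y, ⟨hy, h2⟩, rfl⟩
      refine ⟨⟨y, hy, rfl⟩, ?_⟩
      rw [← mul_sub]
      exact (dvd_scale hg hu hc _).2 h2
  rw [h1]
  exact Finset.card_image_of_injective _ fun a b hab => mul_left_cancel₀ hg0 hab

/-- the drop is invariant under scaling -/
theorem drop_scale {g u h q q' : ℤ} (hg : g = u * h) (hg0 : g ≠ 0) (hc : IsCoprime h q)
    (hc' : IsCoprime h q') (X : Finset ℤ) :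
    drop (u * q) (u * q') (X.image fun x => g * x) = drop q q' X := by
  unfold drop
  rw [Finset.sum_image fun a _ b _ hab => mul_left_cancel₀ hg0 hab]
  refine Finset.sum_congr rfl fun x _ => ?_
  rw [card_cls_scale hg hg0 hc X x, card_cls_scale hg hg0 hc' X x]

/-- the sum of the drops over the windows of a chain -/
theorem sum_windows (A S : Finset ℤ) (w : ℕ) (g U h r : ℕ → ℤ) (q : ℤ)
    (hg0 : ∀ t < w, g t ≠ 0) (hg : ∀ t < w, g t = U t * h t)
    (hU : ∀ t < w, U (t + 1) = U t * r t) (hq : ∀ t < w, IsCoprime (h t) q)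
    (hr : ∀ t < w, IsCoprime (h t) (r t))
    (hS : ∀ t < w, (A.image fun x => g t * x) ⊆ S) :
    ∑ t ∈ Finset.range w, drop q (q * r t) A ≤ S.card * Real.log S.card := by
  classical
  let ℓ : ℕ → ℤ → ℝ := fun t x =>
    Real.log ((cls (U t * q) S x).card / (cls (U (t + 1) * q) S x).card)
  have hdvd : ∀ t < w, U t * q ∣ U (t + 1) * q := by
    intro t ht
    rw [hU t ht]
    exact mul_dvd_mul_right (dvd_mul_right _ _) _
  have hℓ0 : ∀ t < w, ∀ x ∈ S, 0 ≤ ℓ t x := by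
    intro t ht x hx
    refine Real.log_nonneg ?_
    rw [le_div_iff₀ (cls_posR hx), one_mul]
    have : cls (U (t + 1) * q) S x ⊆ cls (U t * q) S x := by
      intro z hz
      rw [mem_cls] at hz ⊢
      exact ⟨hz.1, (hdvd t ht).trans hz.2⟩
    exact_mod_cast Finset.card_le_card this
  have h1 : ∀ t ∈ Finset.range w, drop q (q * r t) A ≤ ∑ x ∈ S, ℓ t x := by
    intro t ht
    rw [Finset.mem_range] at ht
    rw [← drop_scale (hg t ht) (hg0 t ht) (hq t ht) ((hq t ht).mul_right (hr t ht)) A]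
    have e : U t * (q * r t) = U (t + 1) * q := by
      rw [hU t ht]; ring
    rw [e]
    refine (gibbs_sub (hdvd t ht) (hS t ht)).trans ?_
    exact Finset.sum_le_sum_of_subset_of_nonneg (hS t ht) fun x hx _ => hℓ0 t ht x hx
  refine (Finset.sum_le_sum h1).trans ?_
  rw [Finset.sum_comm]
  have h2 : ∀ x ∈ S, ∑ t ∈ Finset.range w, ℓ t x ≤ Real.log S.card := by
    intro x hx
    have h4 : ∀ t ∈ Finset.range w, ℓ t x =
        Real.log (cls (U t * q) S x).card - Real.log (cls (U (t + 1) * q) S x).card := by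
      intro t _
      exact Real.log_div (cls_posR hx).ne' (cls_posR hx).ne'
    rw [Finset.sum_congr rfl h4,
      Finset.sum_range_sub' (fun t => Real.log ((cls (U t * q) S x).card : ℝ))]
    have h5 : 0 ≤ Real.log ((cls (U w * q) S x).card : ℝ) := Real.log_natCast_nonneg _
    have h6 : Real.log ((cls (U 0 * q) S x).card : ℝ) ≤ Real.log S.card := by
      refine Real.log_le_log (cls_posR hx) ?_
      exact_mod_cast Finset.card_le_card (cls_sub _ _ _)
    linarith
  refine (Finset.sum_le_sum h2).trans (le_of_eq ?_)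
  rw [Finset.sum_const, nsmul_eq_mul]

/-- one window with a small drop -/
theorem exists_window (A S : Finset ℤ) (w : ℕ) (hw : 0 < w) (g U h r : ℕ → ℤ) (q : ℤ)
    (hg0 : ∀ t < w, g t ≠ 0) (hg : ∀ t < w, g t = U t * h t)
    (hU : ∀ t < w, U (t + 1) = U t * r t) (hq : ∀ t < w, IsCoprime (h t) q)
    (hr : ∀ t < w, IsCoprime (h t) (r t))
    (hS : ∀ t < w, (A.image fun x => g t * x) ⊆ S) :
    ∃ t < w, drop q (q * r t) A ≤ S.card * Real.log S.card / w := by
  have hw0 : (0 : ℝ) < w := by exact_mod_cast hw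
  have h1 := sum_windows A S w g U h r q hg0 hg hU hq hr hS
  by_contra hcon
  push Not at hcon
  have h2 : ∑ t ∈ Finset.range w, (S.card * Real.log S.card / w) <
      ∑ t ∈ Finset.range w, drop q (q * r t) A :=
    Finset.sum_lt_sum_of_nonempty ⟨0, Finset.mem_range.2 hw⟩
      fun t ht => hcon t (Finset.mem_range.1 ht)
  rw [Finset.sum_const, Finset.card_range, nsmul_eq_mul, mul_div_cancel₀ _ hw0.ne'] at h2
  linarith

/-- the chain of moduli -/
theorem exists_chain (A S : Finset ℤ) (w : ℕ) (hw : 0 < w) (g U h r : ℕ → ℤ)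
    (hg0 : ∀ t < w, g t ≠ 0) (hg : ∀ t < w, g t = U t * h t)
    (hU : ∀ t < w, U (t + 1) = U t * r t)
    (hr : ∀ s < w, ∀ t < w, IsCoprime (h s) (r t)) (hr2 : ∀ t < w, 2 ≤ |r t|)
    (hS : ∀ t < w, (A.image fun x => g t * x) ⊆ S) :
    ∃ q : ℕ → ℤ, q 0 = 1 ∧ (∀ j, q j ∣ q (j + 1)) ∧ (∀ j, 2 ^ j ≤ |q j|) ∧
      ∀ j, drop (q j) (q (j + 1)) A ≤ S.card * Real.log S.card / w := by
  classical
  -- the admissible moduli
  have hstep : ∀ q : {q : ℤ // ∀ s < w, IsCoprime (h s) q},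
      ∃ q' : {q : ℤ // ∀ s < w, IsCoprime (h s) q}, ∃ t < w, (q' : ℤ) = q * r t ∧
        drop (q : ℤ) q' A ≤ S.card * Real.log S.card / w := by
    intro q
    obtain ⟨t, ht, h1⟩ := exists_window A S w hw g U h r q hg0 hg hU
      (fun s hs => q.2 s hs) (fun s hs => hr s hs s hs) hS
    exact ⟨⟨(q : ℤ) * r t, fun s hs => (q.2 s hs).mul_right (hr s hs t ht)⟩, t, ht, rfl, h1⟩
  choose F hF using hstep
  obtain ⟨Q, hQ0, hQs⟩ : ∃ Q : ℕ → {q : ℤ // ∀ s < w, IsCoprime (h s) q},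
      (Q 0 : ℤ) = 1 ∧ ∀ j, Q (j + 1) = F (Q j) :=
    ⟨fun j => F^[j] ⟨1, fun s _ => isCoprime_one_right⟩, rfl,
      fun j => Function.iterate_succ_apply' F j _⟩
  refine ⟨fun j => (Q j : ℤ), hQ0, fun j => ?_, fun j => ?_, fun j => ?_⟩
  · obtain ⟨t, ht, h1, _⟩ := hF (Q j)
    show (Q j : ℤ) ∣ (Q (j + 1) : ℤ)
    rw [hQs, h1]
    exact dvd_mul_right _ _
  · induction j with
    | zero => simp [hQ0]
    | succ j ih =>
      obtain ⟨t, ht, h1, _⟩ := hF (Q j)
      show 2 ^ (j + 1) ≤ |(Q (j + 1) : ℤ)|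
      rw [hQs, h1, abs_mul, pow_succ]
      exact mul_le_mul ih (hr2 t ht) (by norm_num) (abs_nonneg _)
  · obtain ⟨t, ht, _, h1⟩ := hF (Q j)
    show drop (Q j : ℤ) (Q (j + 1) : ℤ) A ≤ _
    rw [hQs]
    exact h1

/-- a modulus separating the elements of a finite set -/
theorem sep_chain (q : ℕ → ℤ) (hq : ∀ j, 2 ^ j ≤ |q j|) (S : Finset ℤ) :
    ∃ J : ℕ, ∀ x ∈ S, ∀ y ∈ S, q J ∣ x - y → x = y := by
  classical
  let M : ℕ := (S ×ˢ S).sup fun z => (z.1 - z.2).natAbs
  refine ⟨M, fun x hx y hy h => ?_⟩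
  have h1 : (x - y).natAbs ≤ M :=
    Finset.le_sup (f := fun z : ℤ × ℤ => (z.1 - z.2).natAbs) (b := (x, y))
      (Finset.mem_product.2 ⟨hx, hy⟩)
  have h2 : M < 2 ^ M := Nat.lt_two_pow_self
  have h3 : |x - y| < |q M| := by
    refine lt_of_lt_of_le ?_ (hq M)
    rw [Int.abs_eq_natAbs]
    exact_mod_cast lt_of_le_of_lt h1 h2
  have h4 := Int.eq_zero_of_abs_lt_dvd ((abs_dvd _ _).2 h) h3
  linarith

end Pool.Agent.Y432
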