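import Pool.Agent.Y432.Asym
import Pool.Agent.W219.SP.Cor

/-!
Sums and products of sets with many different parts.
-/

set_option autoImplicit false

namespace Pool.Agent.Y432

open Finset Pool.Agent.W219.SP
open scoped Pointwise

theorem sp_cor (ε : ℝ) (hε : 0 < ε) : ∃ c : ℝ, 0 < c ∧ ∃ N₀ : ℕ, ∀ A : Finset ℤ,
    N₀ ≤ A.card → ∀ P : Finset ℕ, (∀ p ∈ P, p.Prime) →
    (P.card : ℝ) * Real.log (Real.log A.card) ≤ c * Real.log A.card →
    (A.card : ℝ) ^ (1 - ε) * (parts P (A.erase 0) : ℝ) ≤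
      max ((A + A).card : ℝ) ((A * A).card : ℝ) := by
  obtain ⟨c, hc, N₀, h⟩ := asym (ε / 2) (by linarith) 1
  refine ⟨c, hc, max N₀ 2, ?_⟩
  intro A hA P hP hPc
  have hA2 : 2 ≤ A.card := (le_max_right _ _).trans hA
  have hA1 : (1 : ℝ) < A.card := by
    have : 1 < A.card := by omega
    exact_mod_cast this
  have hA0 : (0 : ℝ) < A.card := by linarith
  have hAn : A.Nonempty := Finset.card_pos.1 (by omega)
  have hne : (A.erase 0).Nonempty := by
    rw [← Finset.card_pos]
    have := Finset.pred_card_le_card_erase (s := A) (a := (0 : ℤ))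
    omega
  have hcard : (A.erase 0).card ≤ A.card := Finset.card_le_card (Finset.erase_subset _ _)
  rcases h A ((le_max_left _ _).trans hA) (A.erase 0) hne (Finset.notMem_erase _ _)
    (by rwa [pow_one]) P hP hPc with h1 | h1
  · refine le_trans ?_ (le_max_right _ _)
    have h2 : ((A * A.erase 0).card : ℝ) ≤ (A * A).card := by
      exact_mod_cast Finset.card_le_card (Finset.mul_subset_mul_left (Finset.erase_subset _ _))
    refine le_trans ?_ (h1.trans h2)
    refine mul_le_mul_of_nonneg_right ?_ (Nat.cast_nonneg _)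
    exact Real.rpow_le_rpow_of_exponent_le hA1.le (by linarith)
  · refine le_trans ?_ (le_max_left _ _)
    have h2 := h1 A hAn
    rw [ksum_one] at h2
    refine le_trans ?_ h2
    have h3 : (parts P (A.erase 0) : ℝ) ≤ A.card := by
      exact_mod_cast Finset.card_image_le.trans hcard
    calc (A.card : ℝ) ^ (1 - ε) * (parts P (A.erase 0) : ℝ) ≤ (A.card : ℝ) ^ (1 - ε) * A.card :=
          mul_le_mul_of_nonneg_left h3 (Real.rpow_nonneg hA0.le _)
      _ = (A.card : ℝ) ^ ((((1 : ℕ) : ℝ) - ε / 2) + (1 - ε / 2)) := by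
          rw [← Real.rpow_add_one hA0.ne']
          congr 1
          push_cast
          ring
      _ = _ := Real.rpow_add hA0 _ _

theorem ksp_cor (ε : ℝ) (hε : 0 < ε) (k : ℕ) : ∃ c : ℝ, 0 < c ∧ ∃ N₀ : ℕ, ∀ A : Finset ℤ,
    N₀ ≤ A.card → ∀ P : Finset ℕ, (∀ p ∈ P, p.Prime) →
    (P.card : ℝ) * Real.log (Real.log A.card) ≤ c * Real.log A.card →
    (A.card : ℝ) ^ (1 - ε) * (parts P
        ((Fintype.piFinset fun _ : Fin k => A.erase 0).image fun f => ∏ i, f i) : ℝ) ≤
      max ((((Fintype.piFinset fun _ : Fin (k + 1) => A).image fun f => ∑ i, f i)).card : ℝ)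
        ((((Fintype.piFinset fun _ : Fin (k + 1) => A).image fun f => ∏ i, f i)).card : ℝ) := by
  classical
  obtain ⟨c, hc, N₀, h⟩ := asym ε hε (k + 1)
  refine ⟨c, hc, max N₀ 2, ?_⟩
  intro A hA P hP hPc
  have hA2 : 2 ≤ A.card := (le_max_right _ _).trans hA
  have hA1 : (1 : ℝ) < A.card := by
    have : 1 < A.card := by omega
    exact_mod_cast this
  have hA0 : (0 : ℝ) < A.card := by linarith
  have hAn : A.Nonempty := Finset.card_pos.1 (by omega)
  have hne : (A.erase 0).Nonempty := by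
    rw [← Finset.card_pos]
    have := Finset.pred_card_le_card_erase (s := A) (a := (0 : ℤ))
    omega
  set Q := (Fintype.piFinset fun _ : Fin k => A.erase 0).image fun f => ∏ i, f i with hQ
  have hQn : Q.Nonempty := by
    obtain ⟨a, ha⟩ := hne
    exact ⟨_, Finset.mem_image_of_mem _ (Fintype.mem_piFinset.2 fun _ : Fin k => ha)⟩
  have hQ0 : (0 : ℤ) ∉ Q := by
    intro h
    obtain ⟨f, hf, h0⟩ := Finset.mem_image.1 h
    rw [Finset.prod_eq_zero_iff] at h0
    obtain ⟨i, _, hi⟩ := h0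
    rw [Fintype.mem_piFinset] at hf
    exact (Finset.mem_erase.1 (hf i)).1 hi
  have hQc : Q.card ≤ A.card ^ k := by
    refine Finset.card_image_le.trans ?_
    rw [Fintype.card_piFinset, Finset.prod_const, Finset.card_univ, Fintype.card_fin]
    exact Nat.pow_le_pow_left (Finset.card_le_card (Finset.erase_subset _ _)) _
  have hQc1 : Q.card ≤ A.card ^ (k + 1) :=
    hQc.trans (Nat.pow_le_pow_right (by omega) (Nat.le_succ k))
  have hsub : A * Q ⊆ (Fintype.piFinset fun _ : Fin (k + 1) => A).image fun f => ∏ i, f i := by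
    intro z hz
    obtain ⟨a, ha, q, hq, rfl⟩ := Finset.mem_mul.1 hz
    obtain ⟨f, hf, rfl⟩ := Finset.mem_image.1 hq
    refine Finset.mem_image.2 ⟨Fin.cons a f, ?_, ?_⟩
    · rw [Fintype.mem_piFinset] at hf ⊢
      intro i
      refine Fin.cases ?_ (fun j => ?_) i
      · simpa using ha
      · have := hf j
        simpa using (Finset.mem_erase.1 this).2
    · rw [Fin.prod_univ_succ]
      simp
  rcases h A ((le_max_left _ _).trans hA) Q hQn hQ0 hQc1 P hP hPc with h1 | h1
  · refine le_trans ?_ (le_max_right _ _)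
    refine h1.trans ?_
    exact_mod_cast Finset.card_le_card hsub
  · refine le_trans ?_ (le_max_left _ _)
    have h2 := h1 {0} (Finset.singleton_nonempty 0)
    rw [Finset.card_singleton, Nat.cast_one, Real.one_rpow, mul_one, Finset.singleton_zero,
      add_zero] at h2
    refine le_trans ?_ h2
    have h3 : (parts P Q : ℝ) ≤ (A.card : ℝ) ^ k := by
      exact_mod_cast Finset.card_image_le.trans hQc
    calc (A.card : ℝ) ^ (1 - ε) * (parts P Q : ℝ) ≤
        (A.card : ℝ) ^ (1 - ε) * (A.card : ℝ) ^ k :=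
          mul_le_mul_of_nonneg_left h3 (Real.rpow_nonneg hA0.le _)
      _ = (A.card : ℝ) ^ (((k + 1 : ℕ) : ℝ) - ε) := by
          rw [← Real.rpow_natCast, ← Real.rpow_add hA0]
          congr 1
          push_cast
          ring

/-- the dichotomy -/
theorem main (ε : ℝ) (hε : 0 < ε) (k : ℕ) : ∃ c : ℝ, 0 < c ∧ ∃ N₀ : ℕ, ∀ A : Finset ℤ,
    N₀ ≤ A.card → ∀ P : Finset ℕ, (∀ p ∈ P, p.Prime) →
    (P.card : ℝ) * Real.log (Real.log A.card) ≤ c * Real.log A.card →
    (∀ Q : Finset ℤ, Q.Nonempty → (0 : ℤ) ∉ Q → Q.card ≤ A.card ^ k →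
        (A.card : ℝ) ^ (1 - ε) * (parts P Q : ℝ) ≤ ((A * Q).card : ℝ)) ∨
      ∀ B : Finset ℤ, B.Nonempty →
        (A.card : ℝ) ^ ((k : ℝ) - ε) * (B.card : ℝ) ^ (1 - ε) ≤ ((ksum k A + B).card : ℝ) := by
  obtain ⟨c, hc, N, h⟩ := asym ε hε k
  refine ⟨c, hc, N, ?_⟩
  intro A hA P hP hPc
  by_cases h2 : ∀ B : Finset ℤ, B.Nonempty →
      (A.card : ℝ) ^ ((k : ℝ) - ε) * (B.card : ℝ) ^ (1 - ε) ≤ ((ksum k A + B).card : ℝ)
  · exact Or.inr h2
  · left
    intro Q hQ hQ0 hQc
    rcases h A hA Q hQ hQ0 hQc P hP hPc with h3 | h3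
    · exact h3
    · exact absurd h3 h2

end Pool.Agent.Y432
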