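import Pool.Agent.Y432.Sel

/-!
Sets of integers with few products by a set of integers with many different valuations.
-/

set_option autoImplicit false

namespace Pool.Agent.Y432

open Finset Pool.Agent.W219.SP
open scoped Pointwise

/-- the divisors of `z` in `G` whose quotient is in `A` -/
def quo (A G : Finset ℤ) (z : ℤ) : Finset ℤ := G.filter fun g => ∃ a ∈ A, a * g = z

theorem sum_quo (A G : Finset ℤ) (hG0 : (0 : ℤ) ∉ G) :
    ∑ z ∈ A * G, (quo A G z).card = A.card * G.card := by
  classical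
  have h1 : ∀ z ∈ A * G, (quo A G z).card = ∑ g ∈ G, if (∃ a ∈ A, a * g = z) then 1 else 0 := by
    intro z _
    rw [← Finset.sum_filter, ← Finset.card_eq_sum_ones]
    rfl
  rw [Finset.sum_congr rfl h1, Finset.sum_comm]
  have h2 : ∀ g ∈ G, ∑ z ∈ A * G, (if (∃ a ∈ A, a * g = z) then 1 else 0) = A.card := by
    intro g hg
    have hg0 : g ≠ 0 := fun h => hG0 (h ▸ hg)
    rw [← Finset.sum_filter, ← Finset.card_eq_sum_ones]
    rw [← Finset.card_image_of_injective A (mul_left_injective₀ hg0)]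
    congr 1
    ext z
    simp only [Finset.mem_filter, Finset.mem_image]
    constructor
    · rintro ⟨_, a, ha, h⟩
      exact ⟨a, ha, h⟩
    · rintro ⟨a, ha, rfl⟩
      exact ⟨Finset.mul_mem_mul ha hg, a, ha, rfl⟩
  rw [Finset.sum_congr rfl h2, Finset.sum_const, smul_eq_mul, mul_comm]

theorem alg_aux (a b g r t : ℝ) (hg : g ≠ 0) (hr : r ≠ 0) (ht : t ≠ 0) :
    a * b / (2 * r * t) = (a * g / 2 / r / t) / g * b := by
  field_simp

theorem fin_aux {ι : Type*} (Z : Finset ι) (h : ι → ℝ) (hh : ∀ z ∈ Z, 0 ≤ h z)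
    (K T a b : ℝ) (hK : 0 ≤ K) (hT : T = K * b) (hT0 : 0 < T) (hab : a ≤ b) :
    K * ((∑ z ∈ Z, h z / T) * a) ≤ ∑ z ∈ Z, h z := by
  have h2 : 0 ≤ ∑ z ∈ Z, h z := Finset.sum_nonneg hh
  rw [← Finset.sum_div]
  have h3 : (∑ z ∈ Z, h z) / T * a ≤ (∑ z ∈ Z, h z) / T * b :=
    mul_le_mul_of_nonneg_left hab (div_nonneg h2 hT0.le)
  refine (mul_le_mul_of_nonneg_left h3 hK).trans (le_of_eq ?_)
  calc K * ((∑ z ∈ Z, h z) / T * b) = (∑ z ∈ Z, h z) * (K * b / T) := by ring
    _ = ∑ z ∈ Z, h z := by rw [← hT, div_self hT0.ne', mul_one]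

/-- one prime -/
theorem one_prime (p : ℕ) [Fact p.Prime] (ε : ℝ) (hε : 0 < ε) (hε1 : ε ≤ 1) (A G B : Finset ℤ)
    (hA : A.Nonempty) (hG : G.Nonempty) (hB : B.Nonempty) (hG0 : (0 : ℤ) ∉ G)
    (hinj : ∀ g ∈ G, ∀ g' ∈ G, padicValInt p g = padicValInt p g' → g = g')
    (hcount : 2 / ε * Real.exp (6 / ε) * ((A * G).card * Real.log (A * G).card) ≤
      (A.card : ℝ) * G.card) :
    ((A.card : ℝ) * B.card) ^ (1 - ε) ≤ ((A + B).card : ℝ) := by
  have hAc : 0 < A.card := hA.card_pos
  have hGc : 0 < G.card := hG.card_pos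
  have h := grow p ε hε hε1 A G B (A * G) hB hG0 (quo A G) (fun z _ => Finset.filter_subset _ _)
    (fun z _ g hg => (Finset.mem_filter.1 hg).2) (fun _ => 1) ?_ ?_ ?_
  · rw [sum_quo A G hG0] at h
    have h2 : ((A.card * G.card : ℕ) : ℝ) / G.card = A.card := by
      have : (G.card : ℝ) ≠ 0 := by exact_mod_cast hGc.ne'
      push_cast
      field_simp
    rwa [h2] at h
  · intro z _ v
    have : ((quo A G z).filter fun g => (padicValInt p g : ℤ) = v).card ≤ 1 := by
      rw [Finset.card_le_one]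
      intro g hg g' hg'
      obtain ⟨e1, e2⟩ := Finset.mem_filter.1 hg
      obtain ⟨f1, f2⟩ := Finset.mem_filter.1 hg'
      refine hinj g (Finset.mem_filter.1 e1).1 g' (Finset.mem_filter.1 f1).1 ?_
      have := e2.trans f2.symm
      exact_mod_cast this
    exact_mod_cast this
  · rw [sum_quo A G hG0]
    positivity
  · rw [sum_quo A G hG0]
    push_cast
    simpa using hcount

/-- several primes -/
theorem many_primes (r : ℕ) (p : ℕ → ℕ) (hp : ∀ i < r, (p i).Prime) (ε : ℝ) (hε : 0 < ε)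
    (hε1 : ε ≤ 1) (A G B : Finset ℤ)
    (hA : 1 < A.card) (hG : G.Nonempty) (hB : B.Nonempty) (hG0 : (0 : ℤ) ∉ G)
    (hinj : ∀ g ∈ G, ∀ g' ∈ G, (∀ i < r, padicValInt (p i) g = padicValInt (p i) g') → g = g')
    (T : ℝ) (hT : T = 2 / ε * Real.exp (6 / ε) * Real.log (A * G).card)
    (hcount : 2 * T ^ r * (A * G).card < (A.card : ℝ) * G.card) :
    ((A.card : ℝ) * B.card / (2 * r * T ^ (r - 1))) ^ (1 - ε) ≤ ((A + B).card : ℝ) := by
  classical
  have hAc : 0 < A.card := by omega
  have hGc : 0 < G.card := hG.card_pos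
  have hAcR : (0 : ℝ) < A.card := by exact_mod_cast hAc
  have hGcR : (0 : ℝ) < G.card := by exact_mod_cast hGc
  obtain ⟨g0, hg0⟩ := hG
  have hg00 : g0 ≠ 0 := fun h => hG0 (h ▸ hg0)
  have hAG : 2 ≤ (A * G).card := by
    have h1 : A.image (fun a => a * g0) ⊆ A * G := by
      intro z hz
      obtain ⟨a, ha, rfl⟩ := Finset.mem_image.1 hz
      exact Finset.mul_mem_mul ha hg0
    have h2 := Finset.card_le_card h1
    rw [Finset.card_image_of_injective A (mul_left_injective₀ hg00)] at h2
    omega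
  have hAGR : (2 : ℝ) ≤ (A * G).card := by exact_mod_cast hAG
  have hK : (1 : ℝ) ≤ 2 / ε * Real.exp (6 / ε) * Real.log 2 := by
    have h1 : (2 : ℝ) ≤ 2 / ε := by
      rw [le_div_iff₀ hε]
      linarith
    have h2 : (1 : ℝ) ≤ Real.exp (6 / ε) := by
      rw [Real.one_le_exp_iff]
      positivity
    have h3 : (0.6931471803 : ℝ) < Real.log 2 := Real.log_two_gt_d9
    have h4 : (2 : ℝ) * 1 ≤ 2 / ε * Real.exp (6 / ε) :=
      mul_le_mul h1 h2 (by norm_num) (by positivity)
    nlinarith
  have hT1 : 1 ≤ T := by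
    rw [hT]
    refine hK.trans (mul_le_mul_of_nonneg_left ?_ (by positivity))
    exact Real.log_le_log (by norm_num) hAGR
  have hT0 : 0 < T := by linarith
  have hr : 0 < r := by
    rcases Nat.eq_zero_or_pos r with h | h
    · exfalso
      subst h
      have h1 : G.card ≤ 1 := by
        rw [Finset.card_le_one]
        intro g hg g' hg'
        exact hinj g hg g' hg' fun i hi => absurd hi (Nat.not_lt_zero _)
      have h2 : (G.card : ℝ) ≤ 1 := by exact_mod_cast h1
      have h3 : (A.card : ℝ) ≤ (A * G).card := by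
        have h1 : A.image (fun a => a * g0) ⊆ A * G := by
          intro z hz
          obtain ⟨a, ha, rfl⟩ := Finset.mem_image.1 hz
          exact Finset.mul_mem_mul ha hg0
        have h2 := Finset.card_le_card h1
        rw [Finset.card_image_of_injective A (mul_left_injective₀ hg00)] at h2
        exact_mod_cast h2
      have h4 : (A.card : ℝ) * G.card ≤ A.card * 1 := mul_le_mul_of_nonneg_left h2 hAcR.le
      simp only [pow_zero] at hcount
      linarith
    · exact h
  have hrR : (0 : ℝ) < r := by exact_mod_cast hr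
  -- the rich products
  set S := A * G with hS
  set R := S.filter fun z => T ^ r < (quo A G z).card with hR
  have hRsum : (A.card : ℝ) * G.card / 2 ≤ ∑ z ∈ R, ((quo A G z).card : ℝ) := by
    have h1 : ∑ z ∈ S, ((quo A G z).card : ℝ) = A.card * G.card := by
      have := sum_quo A G hG0
      exact_mod_cast this
    have h2 := Finset.sum_filter_add_sum_filter_not S (fun z => T ^ r < (quo A G z).card)
      (fun z => ((quo A G z).card : ℝ))
    have h3 : ∑ z ∈ S.filter (fun z => ¬ T ^ r < (quo A G z).card), ((quo A G z).card : ℝ) ≤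
        T ^ r * S.card := by
      calc _ ≤ ∑ z ∈ S.filter (fun z => ¬ T ^ r < (quo A G z).card), T ^ r :=
            Finset.sum_le_sum fun z hz => not_lt.1 (Finset.mem_filter.1 hz).2
        _ = ((S.filter (fun z => ¬ T ^ r < (quo A G z).card)).card : ℝ) * T ^ r := by
            rw [Finset.sum_const, nsmul_eq_mul]
        _ ≤ S.card * T ^ r := by
            refine mul_le_mul_of_nonneg_right ?_ (by positivity)
            exact_mod_cast Finset.card_le_card (Finset.filter_subset _ _)
        _ = _ := by ring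
    rw [← hR] at h2
    linarith
  -- the selection
  have hsel : ∀ z ∈ R, ∃ i < r, ∃ H ⊆ quo A G z, ((quo A G z).card : ℝ) ≤
      T ^ (r - 1) * H.card ∧
      ∀ v : ℤ, ((H.filter fun g => (padicValInt (p i) g : ℤ) = v).card : ℝ) ≤ H.card / T := by
    intro z hz
    refine select T hT1 r (fun i g => (padicValInt (p i) g : ℤ)) (quo A G z) ?_
      (Finset.mem_filter.1 hz).2
    intro g hg g' hg' h
    refine hinj g (Finset.mem_filter.1 hg).1 g' (Finset.mem_filter.1 hg').1 fun i hi => ?_
    exact_mod_cast h i hi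
  choose! i hi H hH hH1 hH2 using hsel
  -- the best prime
  have hpig : ∃ k ∈ Finset.range r, (A.card : ℝ) * G.card / 2 / r ≤
      ∑ z ∈ R.filter (fun z => i z = k), ((quo A G z).card : ℝ) := by
    by_contra hcon
    push Not at hcon
    have h1 : ∑ k ∈ Finset.range r, ∑ z ∈ R.filter (fun z => i z = k),
        ((quo A G z).card : ℝ) = ∑ z ∈ R, ((quo A G z).card : ℝ) :=
      Finset.sum_fiberwise_of_maps_to (fun z hz => Finset.mem_range.2 (hi z hz)) _
    have h2 : ∑ k ∈ Finset.range r, ∑ z ∈ R.filter (fun z => i z = k),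
        ((quo A G z).card : ℝ) < ∑ k ∈ Finset.range r, (A.card : ℝ) * G.card / 2 / r :=
      Finset.sum_lt_sum_of_nonempty ⟨0, Finset.mem_range.2 hr⟩ hcon
    rw [Finset.sum_const, Finset.card_range, nsmul_eq_mul] at h2
    have h3 : (r : ℝ) * ((A.card : ℝ) * G.card / 2 / r) = (A.card : ℝ) * G.card / 2 := by
      field_simp
    linarith
  obtain ⟨k, hk, hkS⟩ := hpig
  have hkr : k < r := Finset.mem_range.1 hk
  set Z := R.filter fun z => i z = k with hZ
  have hZR : Z ⊆ R := Finset.filter_subset _ _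
  have hZi : ∀ z ∈ Z, i z = k := fun z hz => (Finset.mem_filter.1 hz).2
  have hTr : (0 : ℝ) < T ^ (r - 1) := by positivity
  have hN : (A.card : ℝ) * G.card / 2 / r / T ^ (r - 1) ≤ ∑ z ∈ Z, ((H z).card : ℝ) := by
    rw [div_le_iff₀ hTr, Finset.sum_mul]
    refine hkS.trans (Finset.sum_le_sum fun z hz => ?_)
    rw [mul_comm]
    exact hH1 z (hZR hz)
  have hN0 : (0 : ℝ) < (A.card : ℝ) * G.card / 2 / r / T ^ (r - 1) := by positivity
  have := Fact.mk (hp k hkr)
  have hNpos : 0 < ∑ z ∈ Z, (H z).card := by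
    have h1 : (0 : ℝ) < ((∑ z ∈ Z, (H z).card : ℕ) : ℝ) := by
      rw [Nat.cast_sum]
      linarith
    exact_mod_cast h1
  have h := grow (p k) ε hε hε1 A G B Z hB hG0 H
    (fun z hz => (hH z (hZR hz)).trans (Finset.filter_subset _ _))
    (fun z hz g hg => (Finset.mem_filter.1 (hH z (hZR hz) hg)).2) (fun z => (H z).card / T)
    (fun z hz v => by
      have h1 := hH2 z (hZR hz) v
      rw [hZi z hz] at h1
      exact h1) hNpos ?_
  · refine le_trans (Real.rpow_le_rpow (by positivity) ?_ (by linarith)) h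
    have hB0 : (0 : ℝ) ≤ B.card := Nat.cast_nonneg _
    have h1 : (A.card : ℝ) * B.card / (2 * r * T ^ (r - 1)) =
        ((A.card : ℝ) * G.card / 2 / r / T ^ (r - 1)) / G.card * B.card :=
      alg_aux _ _ _ _ _ hGcR.ne' hrR.ne' hTr.ne'
    rw [h1]
    refine mul_le_mul_of_nonneg_right ?_ hB0
    refine div_le_div_of_nonneg_right ?_ hGcR.le
    rw [Nat.cast_sum]
    exact hN
  · have hZc : (Z.card : ℝ) ≤ S.card := by
      exact_mod_cast Finset.card_le_card (hZR.trans (Finset.filter_subset _ _))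
    have hZ0 : (0 : ℝ) < Z.card := by
      rcases Finset.eq_empty_or_nonempty Z with h1 | h1
      · rw [h1, Finset.sum_empty] at hNpos
        omega
      · exact_mod_cast h1.card_pos
    have h1 : Real.log Z.card ≤ Real.log S.card := Real.log_le_log hZ0 hZc
    rw [Nat.cast_sum]
    exact fin_aux Z (fun z => ((H z).card : ℝ)) (fun z _ => Nat.cast_nonneg _)
      (2 / ε * Real.exp (6 / ε)) T _ _ (by positivity) hT hT0 h1

end Pool.Agent.Y432
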