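import Pool.Agent.Y432.StarsM

/-!
Selecting well distributed sets of multipliers.
-/

set_option autoImplicit false

namespace Pool.Agent.Y432

open Finset Pool.Agent.W219.SP
open scoped Pointwise

section select
variable {ι : Type*} [DecidableEq ι]

theorem select_aux (T : ℝ) (hT : 0 < T) (w : ℕ → ι → ℤ) (F : Finset ι) (k : ℕ) :
    (∃ i < k, ∃ H ⊆ F, (F.card : ℝ) ≤ T ^ i * H.card ∧
      ∀ v : ℤ, T * ((H.filter fun g => w i g = v).card : ℝ) ≤ H.card) ∨
    (∃ H ⊆ F, (F.card : ℝ) ≤ T ^ k * H.card ∧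
      ∀ i < k, ∀ g ∈ H, ∀ g' ∈ H, w i g = w i g') := by
  induction k with
  | zero =>
    right
    exact ⟨F, Finset.Subset.refl _, by simp, fun i hi => absurd hi (Nat.not_lt_zero _)⟩
  | succ k ih =>
    rcases ih with ⟨i, hi, H, hH, h1, h2⟩ | ⟨H, hH, h1, h2⟩
    · exact Or.inl ⟨i, Nat.lt_succ_of_lt hi, H, hH, h1, h2⟩
    · by_cases h : ∀ v : ℤ, T * ((H.filter fun g => w k g = v).card : ℝ) ≤ H.card
      · exact Or.inl ⟨k, Nat.lt_succ_self k, H, hH, h1, h⟩
      · push Not at h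
        obtain ⟨v, hv⟩ := h
        right
        refine ⟨H.filter fun g => w k g = v, (Finset.filter_subset _ _).trans hH, ?_, ?_⟩
        · rw [pow_succ, mul_assoc]
          exact h1.trans (mul_le_mul_of_nonneg_left hv.le (by positivity))
        · intro i hi g hg g' hg'
          obtain ⟨e1, e2⟩ := Finset.mem_filter.1 hg
          obtain ⟨f1, f2⟩ := Finset.mem_filter.1 hg'
          rcases Nat.lt_succ_iff_lt_or_eq.1 hi with h3 | h3
          · exact h2 i h3 g e1 g' f1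
          · rw [h3, e2, f2]

/-- a large set of vectors contains a large subset which is well distributed in one of the
coordinates -/
theorem select (T : ℝ) (hT : 1 ≤ T) (r : ℕ) (w : ℕ → ι → ℤ) (F : Finset ι)
    (hinj : ∀ g ∈ F, ∀ g' ∈ F, (∀ i < r, w i g = w i g') → g = g')
    (hF : T ^ r < F.card) :
    ∃ i < r, ∃ H ⊆ F, (F.card : ℝ) ≤ T ^ (r - 1) * H.card ∧
      ∀ v : ℤ, ((H.filter fun g => w i g = v).card : ℝ) ≤ H.card / T := by
  have hT0 : 0 < T := by linarith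
  rcases select_aux T hT0 w F r with ⟨i, hi, H, hH, h1, h2⟩ | ⟨H, hH, h1, h2⟩
  · refine ⟨i, hi, H, hH, h1.trans ?_, fun v => ?_⟩
    · refine mul_le_mul_of_nonneg_right ?_ (Nat.cast_nonneg _)
      exact pow_le_pow_right₀ hT (by omega)
    · rw [le_div_iff₀ hT0, mul_comm]
      exact h2 v
  · exfalso
    have h3 : H.card ≤ 1 := by
      rw [Finset.card_le_one]
      intro g hg g' hg'
      exact hinj g (hH hg) g' (hH hg') fun i hi => h2 i hi g hg g' hg'
    have h4 : (H.card : ℝ) ≤ 1 := by exact_mod_cast h3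
    have h5 : T ^ r * H.card ≤ T ^ r * 1 := mul_le_mul_of_nonneg_left h4 (by positivity)
    linarith

end select

/-- sumsets of a set with few products, in terms of a selection of multipliers for every product -/
theorem grow (p : ℕ) [Fact p.Prime] (ε : ℝ) (hε : 0 < ε) (hε1 : ε ≤ 1) (A G B S : Finset ℤ)
    (hB : B.Nonempty) (hG0 : (0 : ℤ) ∉ G) (H : ℤ → Finset ℤ) (hHG : ∀ z ∈ S, H z ⊆ G)
    (hHA : ∀ z ∈ S, ∀ g ∈ H z, ∃ a ∈ A, a * g = z) (m : ℤ → ℝ)
    (hm : ∀ z ∈ S, ∀ v : ℤ, (((H z).filter fun g => (padicValInt p g : ℤ) = v).card : ℝ) ≤ m z)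
    (hpos : 0 < ∑ z ∈ S, (H z).card)
    (hcount : 2 / ε * Real.exp (6 / ε) * ((∑ z ∈ S, m z) * Real.log S.card) ≤
      ((∑ z ∈ S, (H z).card : ℕ) : ℝ)) :
    (((∑ z ∈ S, (H z).card : ℕ) : ℝ) / G.card * B.card) ^ (1 - ε) ≤ ((A + B).card : ℝ) := by
  classical
  have hcast : Function.Injective fun g : ℤ => ((g : ℚ))⁻¹ := by
    intro g g' h
    have h2 : ((g : ℚ)) = (g' : ℚ) := inv_injective h
    exact_mod_cast h2
  set Γ : Finset ℚ := G.image fun g : ℤ => ((g : ℚ))⁻¹ with hΓ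
  have hΓc : Γ.card = G.card := Finset.card_image_of_injective _ hcast
  let X : ℚ → Finset ℤ := fun γ => S.filter fun z => γ ∈ (H z).image fun g : ℤ => ((g : ℚ))⁻¹
  have hXmem : ∀ (g : ℤ) (z : ℤ), z ∈ X ((g : ℚ))⁻¹ ↔ z ∈ S ∧ g ∈ H z := by
    intro g z
    simp only [X, Finset.mem_filter, Finset.mem_image]
    constructor
    · rintro ⟨h1, g', h2, h3⟩
      have h4 : g' = g := hcast h3
      exact ⟨h1, h4 ▸ h2⟩
    · rintro ⟨h1, h2⟩
      exact ⟨h1, g, h2, rfl⟩
  have hsum : ∑ γ ∈ Γ, (X γ).card = ∑ z ∈ S, (H z).card := by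
    rw [hΓ, Finset.sum_image fun g _ g' _ h => hcast h]
    have h1 : ∀ g ∈ G, (X ((g : ℚ))⁻¹).card = ∑ z ∈ S, if g ∈ H z then 1 else 0 := by
      intro g _
      rw [Finset.card_eq_sum_ones, ← Finset.sum_filter]
      refine Finset.sum_congr ?_ fun _ _ => rfl
      ext z
      rw [hXmem, Finset.mem_filter]
    rw [Finset.sum_congr rfl h1, Finset.sum_comm]
    refine Finset.sum_congr rfl fun z hz => ?_
    rw [← Finset.sum_filter, ← Finset.card_eq_sum_ones]
    congr 1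
    ext g
    rw [Finset.mem_filter]
    exact ⟨fun h => h.2, fun h => ⟨hHG z hz h, h⟩⟩
  have hmain := stars_mult p ε hε hε1 A S B Γ X hB ?_ ?_ ?_ m ?_ (by rw [hsum]; exact hpos)
    (by rw [hsum]; exact hcount)
  · rw [hsum, hΓc] at hmain
    exact hmain
  · intro γ hγ
    obtain ⟨g, hg, rfl⟩ := Finset.mem_image.1 hγ
    have : g ≠ 0 := fun h => hG0 (h ▸ hg)
    exact inv_ne_zero (by exact_mod_cast this)
  · intro γ _
    exact Finset.filter_subset _ _
  · intro γ hγ z hz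
    obtain ⟨g, hg, rfl⟩ := Finset.mem_image.1 hγ
    obtain ⟨h1, h2⟩ := (hXmem g z).1 hz
    obtain ⟨a, ha, haz⟩ := hHA z h1 g h2
    have hg0 : (g : ℚ) ≠ 0 := by
      have : g ≠ 0 := fun h => hG0 (h ▸ hg)
      exact_mod_cast this
    refine ⟨a, ha, ?_⟩
    rw [← haz]
    push_cast
    field_simp
  · intro z hz v
    refine le_trans ?_ (hm z hz (-v))
    have h1 : (Γ.filter fun γ => z ∈ X γ ∧ padicValRat p γ = v) ⊆
        ((H z).filter fun g => (padicValInt p g : ℤ) = -v).image fun g : ℤ => ((g : ℚ))⁻¹ := by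
      intro γ hγ
      obtain ⟨e1, e2, e3⟩ := Finset.mem_filter.1 hγ
      obtain ⟨g, hg, rfl⟩ := Finset.mem_image.1 e1
      refine Finset.mem_image.2 ⟨g, Finset.mem_filter.2 ⟨((hXmem g z).1 e2).2, ?_⟩, rfl⟩
      rw [padicValRat.inv, padicValRat.of_int] at e3
      omega
    have h2 := Finset.card_le_card h1
    have h3 := h2.trans Finset.card_image_le
    exact_mod_cast h3

end Pool.Agent.Y432
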