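import Pool.Agent.W219.SP.Stars

/-!
The multi-level inequality for an arbitrary chain of moduli.
-/

set_option autoImplicit false

namespace Pool.Agent.Y432

open Finset Pool.Agent.W219.SP
open scoped Pointwise

/-- the total drop over all levels of a chain of moduli -/
theorem sum_drop_chain (q : ℕ → ℤ) (h0 : q 0 = 1) (A : Finset ℤ) (J : ℕ)
    (hJ : ∀ x ∈ A, ∀ y ∈ A, q J ∣ x - y → x = y) :
    ∑ j ∈ Finset.range J, drop (q j) (q (j + 1)) A = A.card * Real.log A.card := by
  unfold drop
  rw [Finset.sum_comm]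
  have h1 : ∀ x ∈ A, ∑ j ∈ Finset.range J,
      Real.log ((cls (q j) A x).card / (cls (q (j + 1)) A x).card) = Real.log A.card := by
    intro x hx
    have h2 : ∀ j ∈ Finset.range J,
        Real.log ((cls (q j) A x).card / (cls (q (j + 1)) A x).card) =
        Real.log (cls (q j) A x).card - Real.log (cls (q (j + 1)) A x).card := by
      intro j _
      rw [Real.log_div (cls_posR hx).ne' (cls_posR hx).ne']
    rw [Finset.sum_congr rfl h2,
      Finset.sum_range_sub' (fun j => Real.log ((cls (q j) A x).card : ℝ))]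
    have h3 : cls (q 0) A x = A := by
      ext z; simp [mem_cls, h0]
    have h4 : cls (q J) A x = {x} := by
      ext z
      rw [mem_cls, Finset.mem_singleton]
      exact ⟨fun h => hJ z h.1 x hx h.2, fun h => by subst h; exact ⟨hx, by simp⟩⟩
    rw [h3, h4]
    simp
  rw [Finset.sum_congr rfl h1, Finset.sum_const, nsmul_eq_mul]

/-- the multi-level inequality for a chain of moduli -/
theorem star_chain (q : ℕ → ℤ) (h0 : q 0 = 1) (hq : ∀ j, q j ∣ q (j + 1)) (A B : Finset ℤ)
    (hA : A.Nonempty) (hB : B.Nonempty) {K : ℝ} (hK : 1 < K)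
    (J : ℕ) (hJA : ∀ x ∈ A, ∀ y ∈ A, q J ∣ x - y → x = y)
    (hJB : ∀ x ∈ B, ∀ y ∈ B, q J ∣ x - y → x = y) :
    Real.log A.card + Real.log B.card - Real.log (A + B).card ≤
      3 / Real.log K * (Real.log A.card + Real.log B.card) +
      K * ((∑ j ∈ Finset.range J, drop (q j) (q (j + 1)) A * drop (q j) (q (j + 1)) B) /
        (A.card * B.card)) := by
  have hA0 : (0 : ℝ) < A.card := by exact_mod_cast hA.card_pos
  have hB0 : (0 : ℝ) < B.card := by exact_mod_cast hB.card_pos
  have hAB0 : (0 : ℝ) < (A + B).card := by exact_mod_cast (hA.add hB).card_pos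
  have hs : ∀ n : ℕ, Phi (q n) A B ≤ Phi (q 0) A B + ∑ j ∈ Finset.range n,
      (3 / Real.log K * (B.card * drop (q j) (q (j + 1)) A +
        A.card * drop (q j) (q (j + 1)) B) +
      K * (drop (q j) (q (j + 1)) A * drop (q j) (q (j + 1)) B)) := by
    intro n
    induction n with
    | zero => simp
    | succ n ih =>
      rw [Finset.sum_range_succ]
      have := step (hq n) A B hK
      linarith
  have h00 : Phi (q 0) A B = A.card * B.card * Real.log ((A + B).card / (A.card * B.card)) := by
    unfold Phi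
    have h1 : ∀ a ∈ A, ∀ b ∈ B, Real.log (Gam (q 0) A B a b) =
        Real.log ((A + B).card / (A.card * B.card)) := by
      intro a _ b _
      have h2 : cls (q 0) A a = A := by ext z; simp [mem_cls, h0]
      have h3 : cls (q 0) B b = B := by ext z; simp [mem_cls, h0]
      unfold Gam
      rw [h2, h3]
    rw [Finset.sum_congr rfl fun a ha => Finset.sum_congr rfl fun b hb => h1 a ha b hb]
    simp only [Finset.sum_const, nsmul_eq_mul]
    ring
  have hJ : Phi (q J) A B = 0 := by
    unfold Phi
    refine Finset.sum_eq_zero fun a ha => Finset.sum_eq_zero fun b hb => ?_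
    have h2 : cls (q J) A a = {a} := by
      ext z
      rw [mem_cls, Finset.mem_singleton]
      exact ⟨fun h => hJA z h.1 a ha h.2, fun h => by subst h; exact ⟨ha, by simp⟩⟩
    have h3 : cls (q J) B b = {b} := by
      ext z
      rw [mem_cls, Finset.mem_singleton]
      exact ⟨fun h => hJB z h.1 b hb h.2, fun h => by subst h; exact ⟨hb, by simp⟩⟩
    unfold Gam
    rw [h2, h3]
    simp
  have h := hs J
  rw [hJ, h00, Finset.sum_add_distrib, ← Finset.mul_sum, ← Finset.mul_sum,
    Finset.sum_add_distrib, ← Finset.mul_sum, ← Finset.mul_sum, sum_drop_chain q h0 A J hJA,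
    sum_drop_chain q h0 B J hJB, Real.log_div hAB0.ne' (by positivity),
    Real.log_mul hA0.ne' hB0.ne'] at h
  have h1 : 0 ≤ (A.card : ℝ) * B.card * (Real.log (A + B).card -
      (Real.log A.card + Real.log B.card) + 3 / Real.log K * (Real.log A.card +
        Real.log B.card) + K * ((∑ j ∈ Finset.range J, drop (q j) (q (j + 1)) A *
        drop (q j) (q (j + 1)) B) / (A.card * B.card))) := by
    refine h.trans (le_of_eq ?_)
    field_simp
    ring
  have h2 := nonneg_of_mul_nonneg_right h1 (by positivity)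
  linarith

/-- the multi-level inequality when the drops of `A` along the chain are uniformly small -/
theorem star_chain_unif (q : ℕ → ℤ) (h0 : q 0 = 1) (hq : ∀ j, q j ∣ q (j + 1)) (A B : Finset ℤ)
    (hA : A.Nonempty) (hB : B.Nonempty) {K : ℝ} (hK : 1 < K)
    (J : ℕ) (hJA : ∀ x ∈ A, ∀ y ∈ A, q J ∣ x - y → x = y)
    (hJB : ∀ x ∈ B, ∀ y ∈ B, q J ∣ x - y → x = y) (α : ℝ)
    (hα : ∀ j < J, drop (q j) (q (j + 1)) A ≤ A.card * α) :
    Real.log A.card + Real.log B.card - Real.log (A + B).card ≤
      3 / Real.log K * (Real.log A.card + Real.log B.card) + K * (α * Real.log B.card) := by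
  have hA0 : (0 : ℝ) < A.card := by exact_mod_cast hA.card_pos
  have hB0 : (0 : ℝ) < B.card := by exact_mod_cast hB.card_pos
  refine (star_chain q h0 hq A B hA hB hK J hJA hJB).trans ?_
  have h1 : ∑ j ∈ Finset.range J, drop (q j) (q (j + 1)) A * drop (q j) (q (j + 1)) B ≤
      A.card * α * (B.card * Real.log B.card) := by
    rw [← sum_drop_chain q h0 B J hJB, Finset.mul_sum]
    refine Finset.sum_le_sum fun j hj => ?_
    exact mul_le_mul_of_nonneg_right (hα j (Finset.mem_range.1 hj)) (drop_nonneg (hq j) B)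
  have h2 : (∑ j ∈ Finset.range J, drop (q j) (q (j + 1)) A *
      drop (q j) (q (j + 1)) B) / (A.card * B.card) ≤ α * Real.log B.card := by
    rw [div_le_iff₀ (by positivity)]
    refine h1.trans (le_of_eq ?_)
    ring
  have h3 := mul_le_mul_of_nonneg_left h2 (by linarith : (0 : ℝ) ≤ K)
  linarith

end Pool.Agent.Y432
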