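import Pool.Agent.W219.SP.Stars

/-!
Sumsets of sets with many partners under a finite set of rational multipliers: a version of
`W219.SP.stars` in which the valuations of the multipliers need not be distinct.
-/

set_option autoImplicit false

namespace Pool.Agent.Y432

open Finset Pool.Agent.W219.SP
open scoped Pointwise

/-- many partners under multipliers whose valuations have bounded multiplicity -/
theorem stars_mult (p : ℕ) [Fact p.Prime] (ε : ℝ) (hε : 0 < ε) (hε1 : ε ≤ 1) (A S B : Finset ℤ)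
    (G : Finset ℚ) (X : ℚ → Finset ℤ) (hB : B.Nonempty) (hG0 : ∀ g ∈ G, g ≠ 0)
    (hXS : ∀ g ∈ G, X g ⊆ S) (hXA : ∀ g ∈ G, ∀ x ∈ X g, ∃ y ∈ A, (y : ℚ) = g * x)
    (m : ℤ → ℝ)
    (hmul : ∀ x ∈ S, ∀ v : ℤ,
      ((G.filter fun g => x ∈ X g ∧ padicValRat p g = v).card : ℝ) ≤ m x)
    (hpos : 0 < ∑ g ∈ G, (X g).card)
    (hcount : 2 / ε * Real.exp (6 / ε) * ((∑ x ∈ S, m x) * Real.log S.card) ≤
      ((∑ g ∈ G, (X g).card : ℕ) : ℝ)) :
    (((∑ g ∈ G, (X g).card : ℕ) : ℝ) / G.card * B.card) ^ (1 - ε) ≤ ((A + B).card : ℝ) := by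
  classical
  have hp2 : (2 : ℤ) ≤ p := by exact_mod_cast (Fact.out : p.Prime).two_le
  have hB0 : (0 : ℝ) < B.card := by exact_mod_cast hB.card_pos
  have hlB : 0 ≤ Real.log B.card := Real.log_natCast_nonneg _
  set K := Real.exp (6 / ε) with hK
  have hK1 : 1 < K := by
    rw [hK, Real.one_lt_exp_iff]
    positivity
  have hlogK : 3 / Real.log K = ε / 2 := by
    rw [hK, Real.log_exp]
    field_simp
    norm_num
  -- restrict to the multipliers with nonempty set
  set N : ℝ := ((∑ g ∈ G, (X g).card : ℕ) : ℝ) with hN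
  have hN0 : 0 < N := by rw [hN]; exact_mod_cast hpos
  set G' := G.filter fun g => (X g).Nonempty with hG'
  have hG'G : G' ⊆ G := Finset.filter_subset _ _
  have hNsum : N = ∑ g ∈ G', ((X g).card : ℝ) := by
    rw [hN]
    push_cast
    rw [hG', Finset.sum_filter_of_ne]
    intro g _ hne
    exact Finset.card_pos.1 (Nat.pos_of_ne_zero fun h => hne (by rw [h]; simp))
  have hg1 : ∀ g ∈ G', (X g).Nonempty := fun g hg => (Finset.mem_filter.1 hg).2
  clear_value N K G'
  have hG'n : G'.Nonempty := by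
    rcases G'.eq_empty_or_nonempty with h | h
    · rw [h, Finset.sum_empty] at hNsum
      linarith
    · exact h
  have hGc : (0 : ℝ) < G.card := by exact_mod_cast (hG'n.mono hG'G).card_pos
  have hint : ∀ g ∈ G, ∀ x ∈ X g, ∃ y : ℤ, (y : ℚ) = g * x := by
    intro g hg x hx
    obtain ⟨y, _, hy⟩ := hXA g hg x hx
    exact ⟨y, hy⟩
  have hYA : ∀ g ∈ G, ydil g (X g) ⊆ A := by
    intro g hg z hz
    obtain ⟨x, hx, rfl⟩ := Finset.mem_image.1 hz
    obtain ⟨y, hy, hyx⟩ := hXA g hg x hx
    have h1 := num_eq (hint g hg) hx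
    rw [← hyx] at h1
    have h2 : ((y : ℚ)).num = y := by
      simp
    rw [← hyx, h2]
    exact hy
  -- a common level
  obtain ⟨J, hJ⟩ := exists_sep hp2 (A ∪ B)
  have hJA : ∀ x ∈ A, ∀ y ∈ A, (p : ℤ) ^ J ∣ x - y → x = y :=
    fun x hx y hy => hJ x (Finset.mem_union_left _ hx) y (Finset.mem_union_left _ hy)
  have hJB : ∀ x ∈ B, ∀ y ∈ B, (p : ℤ) ^ J ∣ x - y → x = y :=
    fun x hx y hy => hJ x (Finset.mem_union_right _ hx) y (Finset.mem_union_right _ hy)
  obtain ⟨g0, hg0⟩ := hG'n
  obtain ⟨x0, hx0⟩ := hg1 g0 hg0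
  have hAn : A.Nonempty := by
    obtain ⟨y, hy, _⟩ := hXA g0 (hG'G hg0) x0 hx0
    exact ⟨y, hy⟩
  have hs : (0 : ℝ) < (A + B).card := by exact_mod_cast (hAn.add hB).card_pos
  -- total drop
  have hdrop : ∀ j : ℕ, ∑ g ∈ G', drop ((p : ℤ) ^ j) ((p : ℤ) ^ (j + 1)) (ydil g (X g)) ≤
      (∑ x ∈ S, m x) * Real.log S.card := by
    intro j
    let ℓ : ℕ → ℤ → ℝ := fun l x =>
      Real.log ((cls ((p : ℤ) ^ l) S x).card / (cls ((p : ℤ) ^ (l + 1)) S x).card)
    have hℓ0 : ∀ l, ∀ x ∈ S, 0 ≤ ℓ l x := by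
      intro l x hx
      refine Real.log_nonneg ?_
      rw [le_div_iff₀ (cls_posR hx), one_mul]
      have : cls ((p : ℤ) ^ (l + 1)) S x ⊆ cls ((p : ℤ) ^ l) S x := by
        intro z hz
        rw [mem_cls] at hz ⊢
        exact ⟨hz.1, (pow_dvd_pow _ (Nat.le_succ l)).trans hz.2⟩
      exact_mod_cast Finset.card_le_card this
    have h1 : ∀ g ∈ G', drop ((p : ℤ) ^ j) ((p : ℤ) ^ (j + 1)) (ydil g (X g)) ≤
        ∑ x ∈ S, if x ∈ X g ∧ padicValRat p g ≤ j then
          ℓ (((j : ℤ) - padicValRat p g).toNat) x else 0 := by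
      intro g hg
      refine (drop_ydil (hG0 g (hG'G hg)) (hint g (hG'G hg)) (hXS g (hG'G hg)) j).trans
        (le_of_eq ?_)
      symm
      have h2 : ∑ x ∈ S, (if x ∈ X g ∧ padicValRat p g ≤ j then
          ℓ (((j : ℤ) - padicValRat p g).toNat) x else 0) = ∑ x ∈ S, if x ∈ X g then
          (if padicValRat p g ≤ j then ℓ (((j : ℤ) - padicValRat p g).toNat) x else 0) else 0 := by
        refine Finset.sum_congr rfl fun x _ => ?_
        by_cases h3 : x ∈ X g
        · simp [h3]
        · simp [h3]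
      rw [h2, ← Finset.sum_filter]
      have h3 : S.filter (fun x => x ∈ X g) = X g := by
        ext x
        rw [Finset.mem_filter]
        exact ⟨fun h3 => h3.2, fun h3 => ⟨hXS g (hG'G hg) h3, h3⟩⟩
      rw [h3]
    refine (Finset.sum_le_sum h1).trans ?_
    rw [Finset.sum_comm]
    have h2 : ∀ x ∈ S, ∑ g ∈ G', (if x ∈ X g ∧ padicValRat p g ≤ j then
        ℓ (((j : ℤ) - padicValRat p g).toNat) x else 0) ≤ m x * Real.log S.card := by
      intro x hx
      have hmx : 0 ≤ m x := (Nat.cast_nonneg _).trans (hmul x hx 0)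
      rw [← Finset.sum_filter]
      rw [Finset.sum_comp (fun l => ℓ l x)
        (fun g : ℚ => ((j : ℤ) - padicValRat p g).toNat)]
      set T := (G'.filter (fun g => x ∈ X g ∧ padicValRat p g ≤ j)).image
        fun g => ((j : ℤ) - padicValRat p g).toNat with hT
      have hm1 : ∀ l ∈ T, (((G'.filter (fun g => x ∈ X g ∧ padicValRat p g ≤ j)).filter
          fun g : ℚ => ((j : ℤ) - padicValRat p g).toNat = l).card : ℝ) ≤ m x := by
        intro l _
        refine le_trans ?_ (hmul x hx ((j : ℤ) - l))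
        have hsub : ((G'.filter (fun g => x ∈ X g ∧ padicValRat p g ≤ j)).filter
            fun g : ℚ => ((j : ℤ) - padicValRat p g).toNat = l) ⊆
            G.filter fun g => x ∈ X g ∧ padicValRat p g = (j : ℤ) - l := by
          intro g hg
          obtain ⟨e1, e2⟩ := Finset.mem_filter.1 hg
          obtain ⟨f1, f2, f3⟩ := Finset.mem_filter.1 e1
          refine Finset.mem_filter.2 ⟨hG'G f1, f2, ?_⟩
          omega
        exact_mod_cast Finset.card_le_card hsub
      have h3 : T ⊆ Finset.range (T.sup id + 1) := by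
        intro l hl
        rw [Finset.mem_range]
        have := Finset.le_sup (f := id) hl
        simp only [id] at this
        omega
      have h3a : ∑ l ∈ T, ((G'.filter (fun g => x ∈ X g ∧ padicValRat p g ≤ j)).filter
          fun g : ℚ => ((j : ℤ) - padicValRat p g).toNat = l).card • ℓ l x ≤
          m x * ∑ l ∈ T, ℓ l x := by
        rw [Finset.mul_sum]
        refine Finset.sum_le_sum fun l hl => ?_
        rw [nsmul_eq_mul]
        exact mul_le_mul_of_nonneg_right (hm1 l hl) (hℓ0 l x hx)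
      refine h3a.trans (mul_le_mul_of_nonneg_left ?_ hmx)
      refine (Finset.sum_le_sum_of_subset_of_nonneg h3 fun l _ _ => hℓ0 l x hx).trans ?_
      have h4 : ∀ l ∈ Finset.range (T.sup id + 1), ℓ l x =
          Real.log (cls ((p : ℤ) ^ l) S x).card - Real.log (cls ((p : ℤ) ^ (l + 1)) S x).card := by
        intro l _
        exact Real.log_div (cls_posR hx).ne' (cls_posR hx).ne'
      rw [Finset.sum_congr rfl h4, Finset.sum_range_sub']
      have h5 : 0 ≤ Real.log (cls ((p : ℤ) ^ (T.sup id + 1)) S x).card :=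
        Real.log_natCast_nonneg _
      have h6 : Real.log (cls ((p : ℤ) ^ 0) S x).card ≤ Real.log S.card := by
        refine Real.log_le_log (cls_posR hx) ?_
        exact_mod_cast Finset.card_le_card (cls_sub _ _ _)
      linarith
    refine (Finset.sum_le_sum h2).trans (le_of_eq ?_)
    rw [Finset.sum_mul]
  -- sum of the defects
  have hstar : ∀ g ∈ G', ((X g).card : ℝ) * ((1 - ε / 2) * (Real.log (X g).card +
      Real.log B.card) - Real.log (A + B).card) ≤ K / B.card *
        ∑ j ∈ Finset.range J, drop ((p : ℤ) ^ j) ((p : ℤ) ^ (j + 1)) (ydil g (X g)) *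
          drop ((p : ℤ) ^ j) ((p : ℤ) ^ (j + 1)) B := by
    intro g hg
    have hXn := hg1 g hg
    have hXc : (0 : ℝ) < (X g).card := by exact_mod_cast hXn.card_pos
    have hYn : (ydil g (X g)).Nonempty := hXn.image _
    have hYsub := hYA g (hG'G hg)
    have h2 := star (p : ℤ) (ydil g (X g)) B hYn hB hK1 J
      (fun x hx y hy => hJA x (hYsub hx) y (hYsub hy)) hJB
    rw [card_ydil (hG0 g (hG'G hg)) (hint g (hG'G hg)), hlogK] at h2
    have h3 : Real.log (ydil g (X g) + B).card ≤ Real.log (A + B).card := by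
      refine Real.log_le_log (by exact_mod_cast (hYn.add hB).card_pos) ?_
      exact_mod_cast Finset.card_le_card (Finset.add_subset_add hYsub (Finset.Subset.refl B))
    have h4 : (1 - ε / 2) * (Real.log (X g).card + Real.log B.card) - Real.log (A + B).card ≤
        K * ((∑ j ∈ Finset.range J, drop ((p : ℤ) ^ j) ((p : ℤ) ^ (j + 1)) (ydil g (X g)) *
          drop ((p : ℤ) ^ j) ((p : ℤ) ^ (j + 1)) B) / ((X g).card * B.card)) := by linarith
    refine (mul_le_mul_of_nonneg_left h4 hXc.le).trans (le_of_eq ?_)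
    field_simp
  have hsum := Finset.sum_le_sum hstar
  rw [← Finset.mul_sum, Finset.sum_comm] at hsum
  have h2 : ∑ j ∈ Finset.range J, ∑ g ∈ G',
      drop ((p : ℤ) ^ j) ((p : ℤ) ^ (j + 1)) (ydil g (X g)) *
        drop ((p : ℤ) ^ j) ((p : ℤ) ^ (j + 1)) B ≤
      (∑ x ∈ S, m x) * Real.log S.card * (B.card * Real.log B.card) := by
    rw [← sum_drop (p : ℤ) B J hJB, Finset.mul_sum]
    refine Finset.sum_le_sum fun j _ => ?_
    rw [← Finset.sum_mul]
    exact mul_le_mul_of_nonneg_right (hdrop j)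
      (drop_nonneg (pow_dvd_pow _ (Nat.le_succ j)) B)
  have h3 : K / B.card * ∑ j ∈ Finset.range J, ∑ g ∈ G',
      drop ((p : ℤ) ^ j) ((p : ℤ) ^ (j + 1)) (ydil g (X g)) *
        drop ((p : ℤ) ^ j) ((p : ℤ) ^ (j + 1)) B ≤ ε / 2 * N * Real.log B.card := by
    calc _ ≤ K / B.card * ((∑ x ∈ S, m x) * Real.log S.card *
            (B.card * Real.log B.card)) :=
          mul_le_mul_of_nonneg_left h2 (by positivity)
      _ = (K * ((∑ x ∈ S, m x) * Real.log S.card)) * Real.log B.card := by field_simp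
      _ ≤ (ε / 2 * N) * Real.log B.card := by
          refine mul_le_mul_of_nonneg_right ?_ hlB
          have h8 := mul_le_mul_of_nonneg_left hcount (by positivity : (0 : ℝ) ≤ ε / 2)
          refine le_trans (le_of_eq ?_) h8
          field_simp
  -- the entropy of the distribution of the multipliers
  have hent : N * Real.log (N / G.card) ≤ ∑ g ∈ G', ((X g).card : ℝ) * Real.log (X g).card := by
    refine ent_dist G' (fun g => ((X g).card : ℝ)) (fun g hg => ?_) N G.card hNsum.symm hN0 hGc ?_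
    · exact_mod_cast (hg1 g hg).card_pos
    · exact_mod_cast Finset.card_le_card hG'G
  set Y := ∑ g ∈ G', ((X g).card : ℝ) * Real.log (X g).card with hY
  have hY0 : 0 ≤ Y := Finset.sum_nonneg fun g _ =>
    mul_nonneg (Nat.cast_nonneg _) (Real.log_natCast_nonneg _)
  have hleft : ∑ g ∈ G', ((X g).card : ℝ) * ((1 - ε / 2) * (Real.log (X g).card +
      Real.log B.card) - Real.log (A + B).card) =
      (1 - ε / 2) * (Y + N * Real.log B.card) - N * Real.log (A + B).card := by
    rw [hY, hNsum, mul_add, Finset.mul_sum, Finset.sum_mul, Finset.mul_sum, Finset.sum_mul,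
      ← Finset.sum_add_distrib, ← Finset.sum_sub_distrib]
    refine Finset.sum_congr rfl fun g _ => ?_
    ring
  rw [hleft] at hsum
  have hfin : N * ((1 - ε) * (Real.log (N / G.card) + Real.log B.card)) ≤
      N * Real.log (A + B).card := by
    have h4 := hsum.trans h3
    -- `(1 - ε/2) Y ≥ (1 - ε) N log (N/|G|)`
    have h5 : (1 - ε) * (N * Real.log (N / G.card)) ≤ (1 - ε / 2) * Y := by
      have h6 := mul_le_mul_of_nonneg_left hent (by linarith : (0 : ℝ) ≤ 1 - ε)
      have h7 : (1 - ε) * Y ≤ (1 - ε / 2) * Y :=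
        mul_le_mul_of_nonneg_right (by linarith) hY0
      linarith
    linarith
  have hfin2 := le_of_mul_le_mul_left hfin hN0
  have hNG : 0 < N / G.card := div_pos hN0 hGc
  rw [Real.rpow_def_of_pos (mul_pos hNG hB0), ← Real.exp_log hs, Real.exp_le_exp,
    Real.log_mul hNG.ne' hB0.ne']
  linarith

end Pool.Agent.Y432
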